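import Pool.Agent.Lib.MP_ef3f0f_gt.U.F.SpecA
import Pool.Agent.Lib.MP_ef3f0f_gt.U.G.Spec

set_option autoImplicit false

/-!
# MP_ef3f0f_gt, Theorem U, Part K: good pants from edges, and the dual functional

`Γ ≤ P × H` acts on the set `P` of frames through its first component. A pair `(l, z)`, `z` an
eigenframe of `l`, gives the framed loop `fr G Γ l z` of `U/G`. The final statement `S_Phi`: if `Γ`
contains no surface group then for every finite list of positive theta types there is a depth `k₀` such that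
for every finite family of compact displacement windows of depth `≥ k₀` of these types there is an admissible function `φ`
which is positive (`0 < dl`) on all thetas of the family.

Modules `U/K/X.lean`: `theorem tX : S_Y .. → ... → S_X P` resp. `S_X P H`, in a section with the same `variable` line
(explicit `P H`), namespace `Pool.Agent.MPEF.U`. Notation: `w⁻¹ = w`, `J⁻¹ = J` (`PG.Ok.ww`, `PG.Ok.JJ`).
Uniform contraction is `S_CTc P` of `U/F/SpecA.lean` (helper66).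
-/

namespace Pool.Agent.MPEF.U

open MeasureTheory Topology
open scoped ENNReal Pointwise
open Pool.Agent.MPEF (SurfaceGroup)

/-- `Γ` acts on the frames by left multiplication with the first component. -/
instance actP {P H : Type} [Group P] [Group H] (Γ : Subgroup (P × H)) : MulAction Γ P :=
  MulAction.compHom P ((MonoidHom.fst P H).comp Γ.subtype)

theorem actP_smul {P H : Type} [Group P] [Group H] (Γ : Subgroup (P × H)) (g : Γ) (k : P) :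
    g • k = (g : P × H).1 * k := rfl

/-- The framed loop `(l, z)`. -/
def fr {P H : Type} [Group P] [Group H] (G : PG P) (Γ : Subgroup (P × H)) (l : Γ) (z : P) :
    FL Γ P := fl G.Tri l z (z * G.w)

/-- The loops `u₀ u₁⁻¹`, `u₁ u₂⁻¹`, `u₂ u₀⁻¹`. -/
def lpp {P H : Type} [Group P] [Group H] (Γ : Subgroup (P × H)) (u : Fin 3 → Γ) (i : Fin 3) : Γ :=
  u i * (u (i + 1))⁻¹

/-- The flipped theta type: exchange of the edges `1`, `2`, all germs multiplied by `J`. -/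
def Th.flip {P : Type} [Group P] (G : PG P) (t : Th P) : Th P where
  c := fun i => t.c (-i) * G.J
  S := fun i => t.S (-i) * {G.J}
  K := fun i => t.K (-i) * {G.J}

section OneGroup

variable (P : Type) [Group P] [TopologicalSpace P] [IsTopologicalGroup P]
  [LocallyCompactSpace P] [T2Space P] [SecondCountableTopology P]

/-- (80 lines) **Invariances.** Uses nothing. Proof. `Tri`: `PG.Ok.Tl`, `Tr`, `Tc`. `Pos`: `Pr`, `Ps`. (4): `Tc`, `TP`, `Ps`. (5) `Pos y x`, so `NT` for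
`C = {y⁻¹ x}` gives `Tri c 1 (y⁻¹ x)`, so `Tri (y c) y x`, and `Tri x (y c) y`. -/
def S_Inv : Prop :=
  ∀ G : PG P, G.Ok →
    (∀ x y z, ∀ b ∈ G.Bor, G.Tri x (y * b) z ↔ G.Tri x y z) ∧
    (∀ x y z, ∀ b ∈ G.Bor, G.Tri x y (z * b) ↔ G.Tri x y z) ∧
    (∀ k k', ∀ b ∈ G.Bor, G.Pos k (k' * b) ↔ G.Pos k k') ∧
    (∀ x y z, G.Tri x y z → G.Pos x y ∧ G.Pos y z ∧ G.Pos x z) ∧
    (∀ x y, G.Pos x y → ∃ z, G.Tri x z y) ∧ (∀ x, ∀ b ∈ G.Bor, Eqv G.Tri (x * b) x) ∧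
    (∀ x y, G.Pos G.w (G.w * x⁻¹ * y) ↔ G.Pos x y)

/-- (170 lines) **Uniform eigenframes.** Uses nothing. Proof. `U'` with `U' U' U' ⊆ U`. For `q' ∈ Q'` let `V₀`, `k'` be from `PG.Ok.LX` for `q'`, `U'`, and
`V ⊆ U'` a neighbourhood of `1` with `V V ⊆ V₀` and `q'⁻¹ V q' ⊆ U'`. Finitely many `V_i q'_i` cover `Q'`; `W` = intersection of the `V_i`, `K` = maximum of the `k'_i`.
For `q ∈ Q` let `d`, `V`, `k` be from `PG.Ok.JN2` for `q`, `U = W`; finitely many `V_j q_j` cover `Q`. Let `d_j ∈ D1 ^ R_j` (`D1e`), `c_j` from `Dpd`; take `k` larger than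
all `k_j` and all `K + c_j`. For `q = v q_j`, `q' = v₀ q'_i`, `s, s' ∈ Dp k`: `s q s' = e (d_j s s') e'`, `e, e' ∈ W`, and `σ = d_j s s' = s s' d_j ∈ Dp K` (`Dpm`, `Dps`, `Dpd`, `comm`).
`LX` for `q'_i`: `z'` with `z'⁻¹ (σ ((e' v₀) q'_i e)) z' ∈ App`, `z' ∈ U' Bor`, `z' w ∈ U' (q'_i⁻¹ w) Bor`. Put `z = e z'`: `z⁻¹ (s q s' q') z = z'⁻¹ σ e' q' e z'`.
`z ∈ e U' Bor`, and `q'_i⁻¹ w = (q'_i⁻¹ v₀ q'_i) (q'⁻¹ w)`. -/
def S_EF : Prop :=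
  ∀ G : PG P, G.Ok → ∀ Q Q' : Set P, IsCompact Q → IsCompact Q' → (∀ q ∈ Q, G.Pos G.w q) →
    (∀ q ∈ Q', G.Pos G.w q) → ∀ U ∈ 𝓝 (1 : P), ∃ k : ℕ, ∀ s ∈ G.Dp k, ∀ s' ∈ G.Dp k,
      ∀ q ∈ Q, ∀ q' ∈ Q', ∃ z : P, z⁻¹ * (s * q * s' * q') * z ∈ G.App ∧
        (∃ e ∈ U, ∃ b ∈ G.Bor, z = e * b) ∧ ∃ e ∈ U, ∃ b ∈ G.Bor, z * G.w = e * (q'⁻¹ * G.w) * b

/-- (70 lines) **Windows.** Uses nothing. Proof. `{(s, e) | Tri (s₀ e₀) (s₁ e₁) (s₂ e₂)}` is open (`To`) and contains the compact set `(S₀ × S₁ × S₂) × {1}`; tube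
lemma (`generalized_tube_lemma`). The same for `K`. Intersect with a compact neighbourhood of `1`. -/
def S_Win : Prop :=
  ∀ G : PG P, G.Ok → ∀ t : Th P, t.Ok G → ∃ U : Set P, IsCompact U ∧ U ∈ 𝓝 (1 : P) ∧
    (∀ s₀ ∈ t.S 0, ∀ s₁ ∈ t.S 1, ∀ s₂ ∈ t.S 2, ∀ e₀ ∈ U, ∀ e₁ ∈ U, ∀ e₂ ∈ U,
      G.Tri (s₀ * e₀) (s₁ * e₁) (s₂ * e₂)) ∧
    ∀ k₀ ∈ t.K 0, ∀ k₁ ∈ t.K 1, ∀ k₂ ∈ t.K 2, ∀ e₀ ∈ U, ∀ e₁ ∈ U, ∀ e₂ ∈ U,
      G.Tri (k₂ * e₂) (k₁ * e₁) (k₀ * e₀)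

/-- (70 lines) **Flip.** Uses nothing. Proof. `-0 = 0`, `-1 = 2`, `-2 = 1` in `Fin 3`. `TS`: `TJ` for `Tri s₀ s₁ s₂` is `Tri (s₀ J) (s₂ J) (s₁ J)`. `TK`: `Tri k₂ k₁ k₀`, so
`Tri k₁ k₀ k₂` (`Tc`), `Tri (k₁ J) (k₂ J) (k₀ J)`. (2) `(s J) t q' = s t (J q')`, and `q'⁻¹ w = κ J` iff `(J q')⁻¹ w = κ` (`J` commutes with `t ∈ A` and `w`). -/
def S_Flip : Prop :=
  ∀ G : PG P, G.Ok →
    (∀ t : Th P, t.Ok G → (t.flip G).Ok G) ∧
    ∀ (S K : Set P) (k : ℕ), G.W (S * {G.J}) (K * {G.J}) k = G.W S K k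

end OneGroup

variable (P H : Type) [Group P] [Group H] [TopologicalSpace P] [TopologicalSpace H]
  [IsTopologicalGroup P] [IsTopologicalGroup H] [LocallyCompactSpace P] [LocallyCompactSpace H]
  [T2Space P] [T2Space H] [SecondCountableTopology P] [SecondCountableTopology H]
  [MeasurableSpace P] [MeasurableSpace H] [BorelSpace P] [BorelSpace H]

/-- (80 lines) **Framed loops.** Uses `S_Inv P`, `S_Dm`. Proof. `CO`: `Tl`, `Tc`, `Ta`, `Tt`, and `dense` from `Tri x y z → Pos x y` and `S_Inv` (5). The rest: `S_Dm` (9), (10), (6), and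
`z d w = z w (w d w)`, `w d w ∈ A ≤ Bor` for `d ∈ A`. (5) `l (z b') = ...`: `Fr l z`: `l⁻¹` has the eigenframe `z w` (`Appw`), `z d` (`comm`, `AppA`: `d⁻¹ (z⁻¹ l z) d = z⁻¹ l z`) and `z J` (`JA`), and
`g l g⁻¹` has the eigenframe `g z`. -/
def S_fr : Prop :=
  ∀ G : PG P, G.Ok → ∀ Γ : Subgroup (P × H),
    CO Γ G.Tri ∧
    (∀ (g l : Γ) (z : P), g • fr G Γ l z = fr G Γ (g * l * g⁻¹) ((g : P × H).1 * z)) ∧
    (∀ (l : Γ) (z : P), ∀ d ∈ G.A, fr G Γ l (z * d) = fr G Γ l z) ∧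
    (∀ (l : Γ) (z : P), (fr G Γ l z).inv = fr G Γ l⁻¹ (z * G.w)) ∧
    ∀ (l z : P), Fr G l z → Fr G l⁻¹ (z * G.w) ∧ Fr G l (z * G.J) ∧ (∀ d ∈ G.A, Fr G l (z * d)) ∧
      ∀ g : P, Fr G (g * l * g⁻¹) (g * z)

/-- (230 lines) **Pants data from windows.** Uses `S_Inv P`, `S_CTc P`, `S_EF P`, `S_Win P`. Proof. `U` (compact) from `S_Win`, `1 ∈ U`. Let `(x⁻¹ u_i y).1 = s_i t_i q_i`, `κ_i = q_i⁻¹ w ∈ K i`, so
`(u i).1 = x.1 s_i t_i w κ_i⁻¹ y.1⁻¹`. `A i = {x.1 s e b | s ∈ S i, e ∈ U, b ∈ Bor}`, `B i = {y.1 κ e b | κ ∈ K i, e ∈ U, b ∈ Bor}`: `posA`, `posB` by `S_Win`, `Tl`, `S_Inv`.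
`mapB`: `(u i).1 (y.1 κ e b) = x.1 s_i (t_i (w κ_i⁻¹ (κ e))) b`, `Pos w (w κ_i⁻¹ (κ e))` (`S_Inv` (7); `κ_i`, `κ e` belong to a positive triple, `1 ∈ U`), these elements form a compact
set, so by `S_CTc` (depth `k`, neighbourhood `U`) this is `x.1 s_i e' b'`. `mapA`: `(u i)⁻¹.1 (x.1 s e b) = y.1 κ_i ((w t_i⁻¹ w) (w s_i⁻¹ (s e))) b`, `w t_i⁻¹ w ∈ Dp k` (`Dpw`).
Eigenframes, `j = i + 1`: `(lpp u i).1 = (x.1 s_i) [t_i (w κ_i⁻¹ κ_j) (w t_j⁻¹ w) (w s_j⁻¹ s_i)] (x.1 s_i)⁻¹`. `S_EF` for `q = w κ_i⁻¹ κ_j`, `q' = w s_j⁻¹ s_i` (compact sets, `Pos w`) and a neighbourhood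
`U'' ⊆ U` of `1` with `(s_j⁻¹ s_i) U'' (s_i⁻¹ s_j) ⊆ U` for all `s_i ∈ S i`, `s_j ∈ S j`: `z'`; `z i = x.1 s_i z' ∈ A i`, `Fr (lpp u i) (z i)`, and
`z' w = e (s_i⁻¹ s_j) b` (`q'⁻¹ w = s_i⁻¹ s_j`), so `z i * w = x.1 s_j (s_j⁻¹ s_i e s_i⁻¹ s_j) b ∈ A j`. `zz i (i+1) = z i`, `zz (i+1) i = z i * w` (`zz i i` arbitrary). `zfix`: `l z = z (z⁻¹ l z)`,
`z⁻¹ l z ∈ App ⊆ Bor`, `l⁻¹ (z w) = (z w) (w (z⁻¹ l z)⁻¹ w)` (`Appw`); `S_Inv` (6). The `Pos` statements: `c i ∈ S i`, the windows (`e = 1`), `S_Inv` (4). -/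
def S_PD : Prop :=
  ∀ G : PG P, G.Ok → ∀ t : Th P, t.Ok G → ∃ k : ℕ, ∀ (Γ : Subgroup (P × H)) (x y : P × H)
    (u : Fin 3 → Γ), (∀ i, (x⁻¹ * (u i : P × H) * y).1 ∈ G.W (t.S i) (t.K i) k) →
    ∃ (A B : Fin 3 → Set P) (zz : Fin 3 → Fin 3 → P), PD G.Tri u A B zz ∧
      (∀ i, zz (i + 1) i = zz i (i + 1) * G.w) ∧
      ∀ i, Fr G (lpp Γ u i : P × H).1 (zz i (i + 1)) ∧
        G.Pos (x.1 * t.c i) (zz i (i + 1) * G.w) ∧ G.Pos (x.1 * t.c (i + 1)) (zz i (i + 1))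

/-- (70 lines) **Good pants.** Uses `S_fr P H`, `S_PD P H`, `S_Pants`. Proof. `S_PD` and `S_Pants`; `z i = zz i (i+1)`; `funext` and `Fin 3` cases. Any other `z` with `Fr` and
`Pos (x.1 * t.c i) (z i * w)` differs by an element of `A` (`UQ`), `fr` is the same (`S_fr` (3)). -/
def S_PK : Prop :=
  ∀ G : PG P, G.Ok → ∀ t : Th P, t.Ok G → ∃ k : ℕ, ∀ (Γ : Subgroup (P × H)) (x y : P × H)
    (u : Fin 3 → Γ), (∀ i, (x⁻¹ * (u i : P × H) * y).1 ∈ G.W (t.S i) (t.K i) k) →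
    (∃ z : Fin 3 → P, ∀ i, Fr G (lpp Γ u i : P × H).1 (z i) ∧
      G.Pos (x.1 * t.c i) (z i * G.w) ∧ G.Pos (x.1 * t.c (i + 1)) (z i)) ∧
    ∀ z : Fin 3 → P, (∀ i, Fr G (lpp Γ u i : P × H).1 (z i) ∧
      G.Pos (x.1 * t.c i) (z i * G.w)) → St 0 3 fun i => fr G Γ (lpp Γ u i) (z i)

/-- (140 lines) **Finiteness.** Uses `S_fr P H`. Proof. `u j ∈ F * Q j * F⁻¹` (compact): finitely many `u` (`D.Ok.disc`). For fixed `u` the set `Ξ` of the `(x, y) ∈ F × F` with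
`x⁻¹ u_j y ∈ Q j` is compact (closed in `F × F`). For `(x₀, y₀) ∈ Ξ` choose `z⁰` (hypothesis); the set of the `(x, y)` with `Pos (x.1 * κ j) (z⁰ j * w)` for all `j` is an open neighbourhood (`Po`); if
`z` satisfies `Fr` and `Pos (x.1 * κ j) (z j * w)` for such an `(x, y)`, then `(z⁰ j)⁻¹ * z j ∈ A` (`UQ`), so `fr l_j (z j) = fr l_j (z⁰ j)` (`S_fr` (3)). Finite subcover of `Ξ`. -/
def S_FinF : Prop :=
  ∀ G : PG P, G.Ok → ∀ D : Dat P H, D.Ok → ∀ (F : Set (P × H)) (Q : Fin 3 → Set (P × H))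
    (κ : Fin 3 → P), IsCompact F → (∀ j, IsCompact (Q j)) →
    (∀ x ∈ F, ∀ y ∈ F, ∀ u : Fin 3 → D.Γ, (∀ j, x⁻¹ * (u j : P × H) * y ∈ Q j) →
      ∃ z : Fin 3 → P, ∀ j, Fr G (lpp D.Γ u j : P × H).1 (z j) ∧
        G.Pos (x.1 * κ j) (z j * G.w)) →
    {c : Fin 3 → FL D.Γ P | ∃ x ∈ F, ∃ y ∈ F, ∃ u : Fin 3 → D.Γ,
      (∀ j, x⁻¹ * (u j : P × H) * y ∈ Q j) ∧ ∃ z : Fin 3 → P,
        (∀ j, Fr G (lpp D.Γ u j : P × H).1 (z j) ∧ G.Pos (x.1 * κ j) (z j * G.w)) ∧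
        c = fun j => fr G D.Γ (lpp D.Γ u j) (z j)}.Finite

/-- (60 lines) **The value of `ph`.** Uses `S_fr P H`. Proof. (1) the chosen frame `z'` has `z⁻¹ * z' ∈ A` (`UQ`), `Adm.scale`. (2) by (1) and `Adm.conj` if there is a frame; if there is
none for `(l, k)` then there is none for `(g l g⁻¹, g k)` (`S_fr` (5)): both sides are `0`. -/
def S_val : Prop :=
  ∀ G : PG P, G.Ok → ∀ (D : Dat P H) (φ : D.Γ → P → ℝ), Adm D G φ →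
    (∀ (l : D.Γ) (z k : P), Fr G (l : P × H).1 z → G.Pos k (z * G.w) → ph G φ l k = φ l z) ∧
    ∀ (g l : D.Γ) (k : P), ph G φ (g * l * g⁻¹) ((g : P × H).1 * k) = ph G φ l k

/-- (300 lines) **The dual functional** (final statement of Part K). Uses `S_inst P H`, `S_fr P H`, `S_Flip P`, `S_PK P H`, `S_FinF P H`, `S_val P H`, `S_Match`, `S_Glue`, `S_SurfEnd`.
Proof. `k₀` larger than the `k` of `S_PK` for all `t ∈ L` and all flips (`G.W S K k` is decreasing in `k`: `Dps`). `F` compact with `Γ F = P × H` (`S_inst`). For `i : ι` and `f ∈ {id, flip}` let `𝒯` be the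
(finite, `S_FinF`) set of the triples `c = fun j => fr (lpp u' j) (z j)` with `x, y ∈ F`, `x⁻¹ u'_j y ∈ Q' j`, `Fr`, `Pos (x.1 * c' j) (z j * w)`, where for `f = id`: `Q' = Q i`, `c' = (t i).c`, and for `f = flip`:
`Q' j = Q i (-j)`, `c' = ((t i).flip G).c`; existence of `z` and `St 0 3 c` by `S_PK` (`S_Flip` (2)). `S_Match` for the set of all these triples (`Γ` acting on `FL D.Γ P`, `FL.inv`, `FL.inv_inv`, `FL.smul_inv`), `d = Subtype.val`: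
(b) `S_Glue`, `S_SurfEnd`: `f : SurfaceGroup h →* D.Γ` injective (`f g = 1` acts trivially), contradiction. (a) `φ₀` on `FL`; `φ₁ l z = φ₀ (fr l z)`, `φ l z = φ₁ l z - φ₁ l (z J)`. `Adm`: `S_fr` (2), (3), (4), `J w = w J`,
`J d = d J`, `J J = 1`. Positivity: `x = γ x'`, `y = γ' y'` with `x', y' ∈ F`, `u'_j = γ⁻¹ u_j γ'`: the same displacements, and `dl` is the same by `S_val` (2). So let `x, y ∈ F`; `z` from `S_PK` (1). By `S_val` (1)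
`dl = ∑_j φ (l_j) (z j) = ∑_j φ₁ l_j (z j) - ∑_j φ₁ l_j (z j * J)`. The first sum is positive (`f = id`). Flip: `u' j = u (-j)`, `l'_0 = l_2⁻¹`, `l'_1 = l_1⁻¹`, `l'_2 = l_0⁻¹`, with the frames `z'_0 = z_2 w J`, `z'_1 = z_1 w J`, `z'_2 = z_0 w J`
(`S_fr` (5)); `Pos (x.1 * c'_j) (z'_j w)`: e.g. `j = 0`: `Pos (x.1 c_0 J) (z_2 w J w) = Pos (x.1 c_0 J) (z_2 J) ↔ Pos (x.1 c_0) z_2` (`PJ`), which is the last part of `S_PK` (1) for `i = 2`.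
So `0 < ∑ φ₁ l'_j z'_j = ∑_j φ₁ l_j⁻¹ (z_j J w) = - ∑_j φ₁ l_j (z_j J)`. -/
def S_Phi : Prop :=
  ∀ G : PG P, G.Ok → ∀ D : Dat P H, D.Ok →
    (∀ h : ℕ, 2 ≤ h → ∀ f : SurfaceGroup h →* D.Γ, ¬ Function.Injective f) →
    ∀ L : List (Th P), (∀ t ∈ L, t.Ok G) → ∃ k₀ : ℕ, ∀ (ι : Type) [Finite ι] (t : ι → Th P)
      (Q : ι → Fin 3 → Set (P × H)), (∀ i, t i ∈ L) → (∀ i j, IsCompact (Q i j)) →
      (∀ i j, ∀ g ∈ Q i j, g.1 ∈ G.W ((t i).S j) ((t i).K j) k₀) →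
      ∃ φ : D.Γ → P → ℝ, Adm D G φ ∧ ∀ (i : ι) (x y : P × H) (u : Fin 3 → D.Γ),
        (∀ j, x⁻¹ * (u j : P × H) * y ∈ Q i j) →
          0 < dl G φ ((t i).c 0) ((t i).c 1) ((t i).c 2) x (u 0) (u 1) (u 2)

end Pool.Agent.MPEF.U
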