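import Pool.Agent.Lib.MP_ef3f0f_gt.U.K.Spec

set_option autoImplicit false

namespace Pool.Agent.MPEF.U

open MeasureTheory Topology
open scoped ENNReal Pointwise
open Pool.Agent.MPEF (SurfaceGroup)

variable (P : Type) [Group P] [TopologicalSpace P] [IsTopologicalGroup P]
  [LocallyCompactSpace P] [T2Space P] [SecondCountableTopology P]

omit [IsTopologicalGroup P] [LocallyCompactSpace P] [T2Space P] [SecondCountableTopology P] in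
private theorem EF_anti (G : PG P) (hG : G.Ok) {k l : ℕ} (h : k ≤ l) : G.Dp l ⊆ G.Dp k := by
  induction l, h using Nat.le_induction with
  | base => exact fun _ hx => hx
  | succ l _ ih => exact (hG.Dps l).trans ih

omit [LocallyCompactSpace P] [T2Space P] [SecondCountableTopology P] in
private theorem EF_nhds (V : Set P) (hV : V ∈ 𝓝 (1 : P)) (q : P) (Q : Set P) :
    {x : P | x * q⁻¹ ∈ V} ∈ 𝓝[Q] q := by
  refine mem_nhdsWithin_of_mem_nhds ?_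
  have h1 : Filter.Tendsto (fun x : P => x * q⁻¹) (𝓝 q) (𝓝 (q * q⁻¹)) :=
    (continuous_mul_const q⁻¹).tendsto q
  rw [mul_inv_cancel] at h1
  exact h1 hV

omit [LocallyCompactSpace P] [T2Space P] [SecondCountableTopology P] in
private theorem EF_A (G : PG P) (hG : G.Ok) (Q' : Set P) (hQ' : IsCompact Q')
    (hpos : ∀ q ∈ Q', G.Pos G.w q) (U : Set P) (hU : U ∈ 𝓝 (1 : P)) :
    ∃ W ∈ 𝓝 (1 : P), ∃ K : ℕ, ∀ q' ∈ Q', ∀ σ ∈ G.Dp K, ∀ e ∈ W, ∀ e' ∈ W, ∃ z : P,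
      z⁻¹ * (σ * (e' * q' * e)) * z ∈ G.App ∧ (∃ e₁ ∈ U, ∃ b ∈ G.Bor, e * z = e₁ * b) ∧
      ∃ e₂ ∈ U, ∃ b ∈ G.Bor, e * z * G.w = e₂ * (q'⁻¹ * G.w) * b := by
  refine hQ'.induction_on (p := fun S => ∃ W ∈ 𝓝 (1 : P), ∃ K : ℕ, ∀ q' ∈ S, ∀ σ ∈ G.Dp K,
      ∀ e ∈ W, ∀ e' ∈ W, ∃ z : P,
      z⁻¹ * (σ * (e' * q' * e)) * z ∈ G.App ∧ (∃ e₁ ∈ U, ∃ b ∈ G.Bor, e * z = e₁ * b) ∧
      ∃ e₂ ∈ U, ∃ b ∈ G.Bor, e * z * G.w = e₂ * (q'⁻¹ * G.w) * b) ?_ ?_ ?_ ?_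
  · exact ⟨Set.univ, Filter.univ_mem, 0, fun q' hq' => absurd hq' (Set.notMem_empty q')⟩
  · rintro S T hST ⟨W, hW, K, h⟩
    exact ⟨W, hW, K, fun q' hq' => h q' (hST hq')⟩
  · rintro S T ⟨W₁, hW₁, K₁, h₁⟩ ⟨W₂, hW₂, K₂, h₂⟩
    refine ⟨W₁ ∩ W₂, Filter.inter_mem hW₁ hW₂, max K₁ K₂, ?_⟩
    rintro q' (hq' | hq') σ hσ e he e' he'
    · exact h₁ q' hq' σ (EF_anti P G hG (le_max_left _ _) hσ) e he.1 e' he'.1
    · exact h₂ q' hq' σ (EF_anti P G hG (le_max_right _ _) hσ) e he.2 e' he'.2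
  · intro p hp
    -- `U'` with `U' U' U' ⊆ U`
    obtain ⟨U', hU', hUU⟩ : ∃ U' ∈ 𝓝 (1 : P), ∀ x ∈ U', ∀ y ∈ U', ∀ z ∈ U', x * y * z ∈ U := by
      have h1 : Filter.Tendsto (fun x : P × P × P => x.1 * x.2.1 * x.2.2)
          (𝓝 ((1 : P), (1 : P), (1 : P))) (𝓝 (1 * 1 * 1)) := by
        have h2 : Continuous fun x : P × P × P => x.1 * x.2.1 * x.2.2 := by fun_prop
        exact h2.tendsto _
      rw [one_mul, one_mul] at h1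
      obtain ⟨U₁, hU₁, V, hV, hUV⟩ := mem_nhds_prod_iff.1 (h1 hU)
      obtain ⟨U₂, hU₂, U₃, hU₃, hUU⟩ := mem_nhds_prod_iff.1 hV
      refine ⟨U₁ ∩ (U₂ ∩ U₃), Filter.inter_mem hU₁ (Filter.inter_mem hU₂ hU₃), ?_⟩
      intro x hx y hy z hz
      have h3 : (x, y, z) ∈ U₁ ×ˢ V := ⟨hx.1, hUU ⟨hy.2.1, hz.2.2⟩⟩
      exact hUV h3
    obtain ⟨V₀, hV₀, K, hLX⟩ := hG.LX p (hpos p hp) U' hU'
    obtain ⟨V₁, hV₁, hVV⟩ : ∃ V₁ ∈ 𝓝 (1 : P), ∀ x ∈ V₁, ∀ y ∈ V₁, x * y ∈ V₀ := by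
      have h1 : Filter.Tendsto (fun x : P × P => x.1 * x.2)
          (𝓝 ((1 : P), (1 : P))) (𝓝 (1 * 1)) := (continuous_mul).tendsto _
      rw [one_mul] at h1
      obtain ⟨U₁, hU₁, U₂, hU₂, hUV⟩ := mem_nhds_prod_iff.1 (h1 hV₀)
      refine ⟨U₁ ∩ U₂, Filter.inter_mem hU₁ hU₂, ?_⟩
      intro x hx y hy
      have h3 : (x, y) ∈ U₁ ×ˢ U₂ := ⟨hx.1, hy.2⟩
      exact hUV h3
    have hV₂ : {x : P | p⁻¹ * x * p ∈ U'} ∈ 𝓝 (1 : P) := by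
      have h1 : Filter.Tendsto (fun x : P => p⁻¹ * x * p) (𝓝 1) (𝓝 (p⁻¹ * 1 * p)) := by
        have h2 : Continuous fun x : P => p⁻¹ * x * p := by fun_prop
        exact h2.tendsto _
      rw [mul_one, inv_mul_cancel] at h1
      exact h1 hU'
    set V : Set P := V₁ ∩ ({x : P | p⁻¹ * x * p ∈ U'} ∩ U') with hVdef
    have hV : V ∈ 𝓝 (1 : P) := Filter.inter_mem hV₁ (Filter.inter_mem hV₂ hU')
    have h1V : (1 : P) ∈ V₁ := mem_of_mem_nhds hV₁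
    refine ⟨_, EF_nhds P V hV p Q', V, hV, K, ?_⟩
    intro q' hq' σ hσ e he e' he'
    obtain ⟨v₀, hv₀⟩ : ∃ v₀, v₀ = q' * p⁻¹ := ⟨_, rfl⟩
    have hv₀V : v₀ ∈ V := by rw [hv₀]; exact hq'
    have hq'' : q' = v₀ * p := by rw [hv₀, inv_mul_cancel_right]
    obtain ⟨z, hz, ⟨e₁, he₁, b₁, hb₁, hz₁⟩, ⟨e₂, he₂, b₂, hb₂, hz₂⟩⟩ := hLX σ hσ (e' * v₀)
      (hVV e' he'.1 v₀ hv₀V.1) e (by
        have h3 := hVV e he.1 1 h1V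
        rwa [mul_one] at h3)
    refine ⟨z, ?_, ⟨e * e₁, ?_, b₁, hb₁, ?_⟩, ⟨e * e₂ * (p⁻¹ * v₀ * p), ?_, b₂, hb₂, ?_⟩⟩
    · have h3 : e' * q' * e = e' * v₀ * p * e := by rw [hq'', ← mul_assoc]
      rw [h3]
      exact hz
    · have h3 := hUU e he.2.2 e₁ he₁ 1 (mem_of_mem_nhds hU')
      rwa [mul_one] at h3
    · rw [hz₁, mul_assoc]
    · exact hUU e he.2.2 e₂ he₂ _ hv₀V.2.1
    · rw [mul_assoc e z G.w, hz₂, hq'']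
      group

omit [LocallyCompactSpace P] [T2Space P] [SecondCountableTopology P] in
private theorem EF_B (G : PG P) (hG : G.Ok) (Q : Set P) (hQ : IsCompact Q)
    (hpos : ∀ q ∈ Q, G.Pos G.w q) (W : Set P) (hW : W ∈ 𝓝 (1 : P)) (K : ℕ) :
    ∃ k : ℕ, ∀ q ∈ Q, ∀ s ∈ G.Dp k, ∀ s' ∈ G.Dp k, ∃ e ∈ W, ∃ e' ∈ W, ∃ σ ∈ G.Dp K,
      s * q * s' = e * σ * e' := by
  refine hQ.induction_on (p := fun S => ∃ k : ℕ, ∀ q ∈ S, ∀ s ∈ G.Dp k, ∀ s' ∈ G.Dp k,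
    ∃ e ∈ W, ∃ e' ∈ W, ∃ σ ∈ G.Dp K, s * q * s' = e * σ * e') ?_ ?_ ?_ ?_
  · exact ⟨0, fun q' hq' => absurd hq' (Set.notMem_empty q')⟩
  · rintro S T hST ⟨k, h⟩
    exact ⟨k, fun q hq => h q (hST hq)⟩
  · rintro S T ⟨k₁, h₁⟩ ⟨k₂, h₂⟩
    refine ⟨max k₁ k₂, ?_⟩
    rintro q (hq | hq) s hs s' hs'
    · exact h₁ q hq s (EF_anti P G hG (le_max_left _ _) hs) s'
        (EF_anti P G hG (le_max_left _ _) hs')
    · exact h₂ q hq s (EF_anti P G hG (le_max_right _ _) hs) s'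
        (EF_anti P G hG (le_max_right _ _) hs')
  · intro p hp
    obtain ⟨d, hd, hJ⟩ := hG.JN2 p (hpos p hp)
    obtain ⟨V, hV, k₁, hk₁⟩ := hJ W hW
    obtain ⟨R, hR⟩ := hG.D1e d hd
    obtain ⟨c, hc⟩ := hG.Dpd R
    refine ⟨_, EF_nhds P V hV p Q, max k₁ (K + c), ?_⟩
    intro q hq s hs s' hs'
    have hs1 := EF_anti P G hG (le_max_left k₁ (K + c)) hs
    have hs1' := EF_anti P G hG (le_max_left k₁ (K + c)) hs'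
    obtain ⟨e, he, e', he', h⟩ := hk₁ s hs1 s' hs1' (q * p⁻¹) hq 1 (mem_of_mem_nhds hV)
    rw [inv_mul_cancel_right, mul_one] at h
    refine ⟨e, he, e', he', d * s * s', ?_, h⟩
    have hss : s * s' ∈ G.Dp (K + c) :=
      EF_anti P G hG (by omega) (hG.Dpm _ _ s hs s' hs')
    have h1 := hc K (s * s') hss d hR
    rw [hG.comm (s * s') (hG.DpA _ hss) d hd, ← mul_assoc] at h1
    exact h1

theorem tEF : S_EF P := by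
  intro G hG Q Q' hQ hQ' hpos hpos' U hU
  obtain ⟨W, hW, K, hA⟩ := EF_A P G hG Q' hQ' hpos' U hU
  obtain ⟨k, hB⟩ := EF_B P G hG Q hQ hpos W hW K
  refine ⟨k, ?_⟩
  intro s hs s' hs' q hq q' hq'
  obtain ⟨e, he, e', he', σ, hσ, h⟩ := hB q hq s hs s' hs'
  obtain ⟨z, hz, h1, h2⟩ := hA q' hq' σ hσ e he e' he'
  refine ⟨e * z, ?_, h1, h2⟩
  have h3 : (e * z)⁻¹ * (s * q * s' * q') * (e * z) = z⁻¹ * (σ * (e' * q' * e)) * z := by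
    rw [h]
    group
  rw [h3]
  exact hz

end Pool.Agent.MPEF.U
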