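import Pool.Agent.Lib.MP_ef3f0f_gt.U.K.Spec

set_option autoImplicit false

/-!
# MP_ef3f0f_gt, Theorem U, Part K: finiteness
-/

namespace Pool.Agent.MPEF.U

open MeasureTheory Topology
open scoped ENNReal Pointwise
open Pool.Agent.MPEF (SurfaceGroup)

variable (P H : Type) [Group P] [Group H] [TopologicalSpace P] [TopologicalSpace H]
  [IsTopologicalGroup P] [IsTopologicalGroup H] [LocallyCompactSpace P] [LocallyCompactSpace H]
  [T2Space P] [T2Space H] [SecondCountableTopology P] [SecondCountableTopology H]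
  [MeasurableSpace P] [MeasurableSpace H] [BorelSpace P] [BorelSpace H]

/-- The triples of framed loops with the base points in a set `s`, for fixed edges `u`. -/
private def finT (P H : Type) [Group P] [Group H] (G : PG P) (Γ : Subgroup (P × H))
    (κ : Fin 3 → P) (u : Fin 3 → Γ) (s : Set ((P × H) × (P × H))) : Set (Fin 3 → FL Γ P) :=
  {c | ∃ q ∈ s, ∃ z : Fin 3 → P,
    (∀ j, Fr G (lpp Γ u j : P × H).1 (z j) ∧ G.Pos (q.1.1 * κ j) (z j * G.w)) ∧
    c = fun j => fr G Γ (lpp Γ u j) (z j)}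

theorem tFinF : S_fr P H → S_FinF P H := by
  intro hfr G hG D hD F Q κ hF hQ hex
  obtain ⟨-, -, hfr3, -, -⟩ := hfr G hG D.Γ
  -- the finite set of the edges
  have hu : {u : Fin 3 → D.Γ | ∀ j, u j ∈ {γ : D.Γ | (γ : P × H) ∈ F * Q j * F⁻¹}}.Finite := by
    apply Set.Finite.pi'
    intro j
    have h1 : IsCompact (F * Q j * F⁻¹) := (hF.mul (hQ j)).mul hF.inv
    have h2 := hD.disc _ h1
    have h3 := h2.preimage (f := fun γ : D.Γ => (γ : P × H)) Subtype.val_injective.injOn
    refine h3.subset ?_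
    intro γ hγ
    exact ⟨γ.2, hγ⟩
  -- for fixed edges
  have hT : ∀ u : Fin 3 → D.Γ, (finT P H G D.Γ κ u
      {q | q ∈ F ×ˢ F ∧ ∀ j, q.1⁻¹ * (u j : P × H) * q.2 ∈ Q j}).Finite := by
    intro u
    have hc : IsCompact {q : (P × H) × (P × H) | q ∈ F ×ˢ F ∧
        ∀ j, q.1⁻¹ * (u j : P × H) * q.2 ∈ Q j} := by
      have h1 : IsClosed {q : (P × H) × (P × H) | ∀ j, q.1⁻¹ * (u j : P × H) * q.2 ∈ Q j} := by
        have h2 : {q : (P × H) × (P × H) | ∀ j, q.1⁻¹ * (u j : P × H) * q.2 ∈ Q j}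
            = ⋂ j, (fun q : (P × H) × (P × H) => q.1⁻¹ * (u j : P × H) * q.2) ⁻¹' Q j := by
          ext q
          simp
        rw [h2]
        apply isClosed_iInter
        intro j
        exact (hQ j).isClosed.preimage
          ((continuous_fst.inv.mul continuous_const).mul continuous_snd)
      exact (hF.prod hF).inter_right h1
    refine hc.induction_on (p := fun s => (finT P H G D.Γ κ u s).Finite) ?_ ?_ ?_ ?_
    · have h0 : finT P H G D.Γ κ u ∅ = ∅ := by
        ext c
        simp [finT]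
      rw [h0]
      exact Set.finite_empty
    · intro s t hst ht
      refine ht.subset ?_
      rintro c ⟨q, hq, z, hz⟩
      exact ⟨q, hst hq, z, hz⟩
    · intro s t hs ht
      refine (hs.union ht).subset ?_
      rintro c ⟨q, hq | hq, z, hz⟩
      · exact Or.inl ⟨q, hq, z, hz⟩
      · exact Or.inr ⟨q, hq, z, hz⟩
    · rintro q ⟨⟨hq1, hq2⟩, hqQ⟩
      obtain ⟨z0, hz0⟩ := hex q.1 hq1 q.2 hq2 u hqQ
      refine ⟨{q' | ∀ j, G.Pos (q'.1.1 * κ j) (z0 j * G.w)}, ?_, ?_⟩
      · apply mem_nhdsWithin_of_mem_nhds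
        have h2 : {q' : (P × H) × (P × H) | ∀ j, G.Pos (q'.1.1 * κ j) (z0 j * G.w)}
            = ⋂ j, (fun q' : (P × H) × (P × H) => (q'.1.1 * κ j, z0 j * G.w)) ⁻¹'
              {q : P × P | G.Pos q.1 q.2} := by
          ext q
          simp
        rw [h2]
        apply IsOpen.mem_nhds
        · apply isOpen_iInter_of_finite
          intro j
          exact hG.Po.preimage
            (((continuous_fst.comp continuous_fst).mul continuous_const).prodMk continuous_const)
        · rw [Set.mem_iInter]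
          intro j
          exact (hz0 j).2
      · refine (Set.finite_singleton (fun j => fr G D.Γ (lpp D.Γ u j) (z0 j))).subset ?_
        rintro c ⟨q', hq', z, hz, rfl⟩
        rw [Set.mem_singleton_iff]
        funext j
        have h3 := (hG.UQ _ _ _ (hz0 j).1 (hz j).1).2 _ (hq' j) (hz j).2
        have h4 := hfr3 (lpp D.Γ u j) (z0 j) _ h3
        rw [mul_inv_cancel_left] at h4
        exact h4
  refine (hu.biUnion (fun u _ => hT u)).subset ?_
  rintro c ⟨x, hx, y, hy, u, hQu, z, hz, hc⟩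
  rw [Set.mem_iUnion₂]
  refine ⟨u, ?_, (x, y), ⟨⟨hx, hy⟩, hQu⟩, z, hz, hc⟩
  intro j
  refine ⟨x * (x⁻¹ * (u j : P × H) * y), Set.mul_mem_mul hx (hQu j), y⁻¹,
    Set.inv_mem_inv.2 hy, ?_⟩
  show x * (x⁻¹ * (u j : P × H) * y) * y⁻¹ = (u j : P × H)
  group

end Pool.Agent.MPEF.U
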