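import Pool.Agent.Lib.MP_ef3f0f_gt.U.K.Spec

set_option autoImplicit false

namespace Pool.Agent.MPEF.U

open MeasureTheory Topology
open scoped ENNReal Pointwise
open Pool.Agent.MPEF (SurfaceGroup)

variable (P : Type) [Group P] [TopologicalSpace P] [IsTopologicalGroup P]
  [LocallyCompactSpace P] [T2Space P] [SecondCountableTopology P]

theorem tFlip : S_Flip P := by
  intro G hG
  have m1 : (-1 : Fin 3) = 2 := by decide
  have m2 : (-2 : Fin 3) = 1 := by decide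
  have m0 : (-0 : Fin 3) = 0 := by decide
  refine ⟨fun t ht => ⟨?_, ?_, ?_, ?_, ?_⟩, ?_⟩
  · intro i
    exact Set.mul_mem_mul (ht.cS (-i)) rfl
  · intro i
    exact (ht.Sc (-i)).mul isCompact_singleton
  · intro i
    exact (ht.Kc (-i)).mul isCompact_singleton
  · intro s₀ h₀ s₁ h₁ s₂ h₂
    change s₀ ∈ t.S (-0) * {G.J} at h₀
    change s₁ ∈ t.S (-1) * {G.J} at h₁
    change s₂ ∈ t.S (-2) * {G.J} at h₂
    rw [m0] at h₀
    rw [m1] at h₁
    rw [m2] at h₂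
    obtain ⟨a, ha, _, rfl, rfl⟩ := h₀
    obtain ⟨b, hb, _, rfl, rfl⟩ := h₁
    obtain ⟨c, hc, _, rfl, rfl⟩ := h₂
    exact hG.TJ a c b (ht.TS a ha c hc b hb)
  · intro s₀ h₀ s₁ h₁ s₂ h₂
    change s₀ ∈ t.K (-0) * {G.J} at h₀
    change s₁ ∈ t.K (-1) * {G.J} at h₁
    change s₂ ∈ t.K (-2) * {G.J} at h₂
    rw [m0] at h₀
    rw [m1] at h₁
    rw [m2] at h₂
    obtain ⟨a, ha, _, rfl, rfl⟩ := h₀
    obtain ⟨b, hb, _, rfl, rfl⟩ := h₁
    obtain ⟨c, hc, _, rfl, rfl⟩ := h₂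
    exact hG.TJ c a b (hG.Tc _ _ _ (ht.TK a ha c hc b hb))
  · intro S K k
    have hJi : G.J⁻¹ = G.J := inv_eq_of_mul_eq_one_left hG.JJ
    have hw : ∀ q : P, (G.J * q)⁻¹ * G.w = q⁻¹ * G.w * G.J := by
      intro q
      rw [mul_inv_rev, hJi, mul_assoc, hG.Jw, ← mul_assoc]
    ext g
    constructor
    · rintro ⟨s, ⟨s', hs', _, rfl, rfl⟩, t, ht, q, ⟨κ, hκ, _, rfl, hq⟩, rfl⟩
      refine ⟨s', hs', t, ht, G.J * q, ?_, ?_⟩
      · change (G.J * q)⁻¹ * G.w ∈ K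
        rw [hw]
        have h1 : κ * G.J = q⁻¹ * G.w := hq
        rw [← h1, mul_assoc, hG.JJ, mul_one]
        exact hκ
      · change s' * G.J * t * q = s' * t * (G.J * q)
        rw [mul_assoc s' G.J t, hG.JA t (hG.DpA k ht)]
        simp only [mul_assoc]
    · rintro ⟨s, hs, t, ht, q, hq, rfl⟩
      refine ⟨s * G.J, Set.mul_mem_mul hs rfl, t, ht, G.J * q, ?_, ?_⟩
      · change (G.J * q)⁻¹ * G.w ∈ K * {G.J}
        rw [hw]
        exact Set.mul_mem_mul hq rfl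
      · rw [mul_assoc s G.J t, hG.JA t (hG.DpA k ht)]
        simp only [mul_assoc]
        rw [← mul_assoc G.J G.J q, hG.JJ, one_mul]

end Pool.Agent.MPEF.U
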