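import Pool.Agent.Lib.MP_ef3f0f_gt.U.K.Spec

set_option autoImplicit false

/-!
# MP_ef3f0f_gt, Theorem U, part K: invariances of `Pos` and `Tri`
-/

namespace Pool.Agent.MPEF.U

open MeasureTheory Topology
open scoped ENNReal Pointwise
open Pool.Agent.MPEF (SurfaceGroup)

section Inv

variable (P : Type) [Group P] [TopologicalSpace P] [IsTopologicalGroup P]
  [LocallyCompactSpace P] [T2Space P] [SecondCountableTopology P]

theorem tInv : S_Inv P := by
  intro G hG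
  have hc : ∀ x y z, G.Tri x y z ↔ G.Tri y z x := fun x y z =>
    ⟨hG.Tc x y z, fun h => hG.Tc z x y (hG.Tc y z x h)⟩
  have h3 : ∀ k k', ∀ b ∈ G.Bor, G.Pos k (k' * b) ↔ G.Pos k k' := fun k k' b hb => by
    rw [hG.Ps k, hG.Pr k' k b hb, hG.Ps k']
  refine ⟨?_, ?_, h3, ?_, ?_, ?_, ?_⟩
  · intro x y z b hb
    rw [hc, hG.Tr y z x b hb, ← hc]
  · intro x y z b hb
    rw [← hc, hG.Tr z x y b hb, hc]
  · intro x y z h
    exact ⟨hG.TP x y z h, hG.TP y z x (hG.Tc x y z h),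
      (hG.Ps z x).1 (hG.TP z x y (hG.Tc y z x (hG.Tc x y z h)))⟩
  · intro x y h
    have h1 : G.Pos 1 (y⁻¹ * x) := by
      have h2 := hG.Pl y 1 (y⁻¹ * x)
      rw [mul_one, mul_inv_cancel_left] at h2
      exact h2.1 ((hG.Ps x y).1 h)
    obtain ⟨c, hcc⟩ := hG.NT {y⁻¹ * x} isCompact_singleton (by
      intro k hk
      rw [Set.mem_singleton_iff.1 hk]
      exact h1)
    have h4 := hcc _ (Set.mem_singleton _)
    have h5 := (hG.Tl y c 1 (y⁻¹ * x)).2 h4
    rw [mul_one, mul_inv_cancel_left] at h5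
    exact ⟨y * c, (hc _ _ _).2 h5⟩
  · intro x b hb u v
    exact hG.Tr x u v b hb
  · intro x y
    have h1 := hG.Pl G.w 1 (x⁻¹ * y)
    have h2 := hG.Pl x 1 (x⁻¹ * y)
    rw [mul_one, mul_inv_cancel_left] at h2
    rw [mul_one, ← mul_assoc] at h1
    rw [h1, h2]

end Inv

end Pool.Agent.MPEF.U
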