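import Pool.Agent.Lib.MP_ef3f0f_gt.U.K.Spec

set_option autoImplicit false

/-!
# MP_ef3f0f_gt, Theorem U, part K: pants data from windows
-/

namespace Pool.Agent.MPEF.U

open MeasureTheory Topology
open scoped ENNReal Pointwise
open Pool.Agent.MPEF (SurfaceGroup)

section PDOne

variable (P : Type) [Group P] [TopologicalSpace P] [IsTopologicalGroup P]

omit [TopologicalSpace P] [IsTopologicalGroup P] in
private theorem PD_anti (G : PG P) (hs : ∀ k, G.Dp (k + 1) ⊆ G.Dp k) {k l : ℕ} (h : k ≤ l) :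
    G.Dp l ⊆ G.Dp k := by
  induction l, h using Nat.le_induction with
  | base => exact fun _ hx => hx
  | succ l _ ih => exact (hs l).trans ih

/-- The elements `w κ⁻¹ (κ' e)`, `κ ∈ K i`, `κ' ∈ K j`, `i ≠ j`, `e ∈ U`. -/
private def PD_Q (w : P) (K : Fin 3 → Set P) (U : Set P) : Set P :=
  ⋃ p : {p : Fin 3 × Fin 3 // p.1 ≠ p.2},
    (fun x : P × P × P => w * x.1⁻¹ * (x.2.1 * x.2.2)) '' (K p.1.1 ×ˢ K p.1.2 ×ˢ U)

private theorem PD_Qc (w : P) (K : Fin 3 → Set P) (U : Set P) (hK : ∀ i, IsCompact (K i))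
    (hU : IsCompact U) : IsCompact (PD_Q P w K U) := by
  apply isCompact_iUnion
  intro p
  apply IsCompact.image ((hK _).prod ((hK _).prod hU))
  fun_prop

omit [TopologicalSpace P] [IsTopologicalGroup P] in
private theorem PD_Qm (w : P) (K : Fin 3 → Set P) (U : Set P) {i j : Fin 3} (hij : i ≠ j)
    {κ κ' e : P} (hκ : κ ∈ K i) (hκ' : κ' ∈ K j) (he : e ∈ U) :
    w * κ⁻¹ * (κ' * e) ∈ PD_Q P w K U :=
  Set.mem_iUnion.2 ⟨⟨(i, j), hij⟩, (κ, κ', e), ⟨hκ, hκ', he⟩, rfl⟩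

omit [TopologicalSpace P] [IsTopologicalGroup P] in
private theorem PD_pos (G : PG P) (hs : ∀ k k', G.Pos k k' ↔ G.Pos k' k) (X : Fin 3 → Set P)
    (hne : ∀ i, (X i).Nonempty)
    (h : ∀ a ∈ X 0, ∀ b ∈ X 1, ∀ c ∈ X 2, G.Pos a b ∧ G.Pos b c ∧ G.Pos a c) :
    ∀ i j, i ≠ j → ∀ a ∈ X i, ∀ b ∈ X j, G.Pos a b := by
  obtain ⟨x0, h0⟩ := hne 0
  obtain ⟨x1, h1⟩ := hne 1
  obtain ⟨x2, h2⟩ := hne 2
  intro i j hij a ha b hb
  fin_cases i <;> fin_cases j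
  · exact absurd rfl hij
  · exact (h a ha b hb x2 h2).1
  · exact (h a ha x1 h1 b hb).2.2
  · exact (hs _ _).2 (h b hb a ha x2 h2).1
  · exact absurd rfl hij
  · exact (h x0 h0 a ha b hb).2.1
  · exact (hs _ _).2 (h b hb x1 h1 a ha).2.2
  · exact (hs _ _).2 (h x0 h0 b hb a ha).2.1
  · exact absurd rfl hij

private theorem PD_nhd (U SS : Set P) (hU : U ∈ 𝓝 (1 : P)) (hS : IsCompact SS) :
    ∃ U'' ∈ 𝓝 (1 : P), U'' ⊆ U ∧ ∀ e ∈ U'', ∀ s ∈ SS, ∀ s' ∈ SS, s'⁻¹ * s * e * s⁻¹ * s' ∈ U := by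
  have h1 : ∀ᶠ e in 𝓝 (1 : P), ∀ p ∈ SS ×ˢ SS, p.2⁻¹ * p.1 * e * p.1⁻¹ * p.2 ∈ U := by
    apply (hS.prod hS).eventually_forall_of_forall_eventually
    rintro ⟨s, s'⟩ _
    have hc : Continuous fun q : P × (P × P) => q.2.2⁻¹ * q.2.1 * q.1 * q.2.1⁻¹ * q.2.2 := by
      fun_prop
    have h2 := hc.tendsto (1, (s, s'))
    have h3 : s'⁻¹ * s * 1 * s⁻¹ * s' = 1 := by group
    change Filter.Tendsto _ _ (𝓝 (s'⁻¹ * s * 1 * s⁻¹ * s')) at h2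
    rw [h3] at h2
    exact h2 hU
  refine ⟨_, Filter.inter_mem h1 hU, fun e he => he.2, fun e he s hs s' hs' => ?_⟩
  exact he.1 (s, s') ⟨hs, hs'⟩

end PDOne

variable (P H : Type) [Group P] [Group H] [TopologicalSpace P] [TopologicalSpace H]
  [IsTopologicalGroup P] [IsTopologicalGroup H] [LocallyCompactSpace P] [LocallyCompactSpace H]
  [T2Space P] [T2Space H] [SecondCountableTopology P] [SecondCountableTopology H]
  [MeasurableSpace P] [MeasurableSpace H] [BorelSpace P] [BorelSpace H]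

theorem tPD : S_Inv P → S_CTc P → S_EF P → S_Win P → S_PD P H := by
  intro hInv hCT hEF hWin G hG t ht
  obtain ⟨U, hUc, hU, hWS, hWK⟩ := hWin G hG t ht
  obtain ⟨i1, i2, i3, i4, -, i6, i7⟩ := hInv G hG
  have h1U : (1 : P) ∈ U := mem_of_mem_nhds hU
  have hw : G.w⁻¹ = G.w := inv_eq_of_mul_eq_one_left hG.ww
  by_cases hne : ∀ i, (t.K i).Nonempty
  swap
  · push Not at hne
    obtain ⟨i, hi⟩ := hne
    refine ⟨0, fun Γ x y u hu => ?_⟩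
    obtain ⟨s, hs, d, hd, q, hq, -⟩ := hu i
    have hq' : q⁻¹ * G.w ∈ t.K i := hq
    rw [hi] at hq'
    exact absurd hq' (Set.notMem_empty _)
  -- positivity of pairs
  have hXS : ∀ i j, i ≠ j → ∀ a ∈ t.S i * U, ∀ b ∈ t.S j * U, G.Pos a b := by
    apply PD_pos P G hG.Ps (fun i => t.S i * U)
    · intro i
      exact ⟨t.c i * 1, Set.mul_mem_mul (ht.cS i) h1U⟩
    · rintro _ ⟨s₀, h₀, e₀, he₀, rfl⟩ _ ⟨s₁, h₁, e₁, he₁, rfl⟩ _ ⟨s₂, h₂, e₂, he₂, rfl⟩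
      exact i4 _ _ _ (hWS s₀ h₀ s₁ h₁ s₂ h₂ e₀ he₀ e₁ he₁ e₂ he₂)
  have hXK : ∀ i j, i ≠ j → ∀ a ∈ t.K i * U, ∀ b ∈ t.K j * U, G.Pos a b := by
    apply PD_pos P G hG.Ps (fun i => t.K i * U)
    · intro i
      obtain ⟨κ, hκ⟩ := hne i
      exact ⟨κ * 1, Set.mul_mem_mul hκ h1U⟩
    · rintro _ ⟨s₀, h₀, e₀, he₀, rfl⟩ _ ⟨s₁, h₁, e₁, he₁, rfl⟩ _ ⟨s₂, h₂, e₂, he₂, rfl⟩
      obtain ⟨p1, p2, p3⟩ := i4 _ _ _ (hWK s₀ h₀ s₁ h₁ s₂ h₂ e₀ he₀ e₁ he₁ e₂ he₂)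
      exact ⟨(hG.Ps _ _).1 p2, (hG.Ps _ _).1 p1, (hG.Ps _ _).1 p3⟩
  -- the compact set
  have hQS : ∀ q ∈ PD_Q P G.w t.S U, G.Pos G.w q := by
    intro q hq
    obtain ⟨⟨⟨i, j⟩, hij⟩, ⟨κ, κ', e⟩, ⟨hκ, hκ', he⟩, rfl⟩ := Set.mem_iUnion.1 hq
    apply (i7 κ (κ' * e)).2
    refine hXS i j hij κ ⟨κ, hκ, 1, h1U, mul_one _⟩ _ (Set.mul_mem_mul hκ' he)
  have hQK : ∀ q ∈ PD_Q P G.w t.K U, G.Pos G.w q := by
    intro q hq
    obtain ⟨⟨⟨i, j⟩, hij⟩, ⟨κ, κ', e⟩, ⟨hκ, hκ', he⟩, rfl⟩ := Set.mem_iUnion.1 hq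
    apply (i7 κ (κ' * e)).2
    refine hXK i j hij κ ⟨κ, hκ, 1, h1U, mul_one _⟩ _ (Set.mul_mem_mul hκ' he)
  have hQSc := PD_Qc P G.w t.S U ht.Sc hUc
  have hQKc := PD_Qc P G.w t.K U ht.Kc hUc
  obtain ⟨k₁, hk₁⟩ := hCT G hG _ hQSc hQS U hU
  obtain ⟨k₂, hk₂⟩ := hCT G hG _ hQKc hQK U hU
  obtain ⟨U'', hU'', hU''U, hconj⟩ := PD_nhd P U (⋃ i, t.S i) hU (isCompact_iUnion ht.Sc)
  obtain ⟨k₃, hk₃⟩ := hEF G hG _ _ hQKc hQSc hQK hQS U'' hU''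
  refine ⟨max k₁ (max k₂ k₃), fun Γ x y u hu => ?_⟩
  set k := max k₁ (max k₂ k₃) with hk
  have hD1 : G.Dp k ⊆ G.Dp k₁ := PD_anti P G hG.Dps (le_max_left _ _)
  have hD2 : G.Dp k ⊆ G.Dp k₂ :=
    PD_anti P G hG.Dps ((le_max_left _ _).trans (le_max_right _ _))
  have hD3 : G.Dp k ⊆ G.Dp k₃ :=
    PD_anti P G hG.Dps ((le_max_right _ _).trans (le_max_right _ _))
  choose s hs d hd q hq heq using hu
  obtain ⟨κ, hκdef⟩ : ∃ κ : Fin 3 → P, ∀ i, κ i = (q i)⁻¹ * G.w := ⟨_, fun _ => rfl⟩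
  have hκ : ∀ i, κ i ∈ t.K i := by
    intro i
    rw [hκdef]
    exact hq i
  have hqκ : ∀ i, q i = G.w * (κ i)⁻¹ := by
    intro i
    rw [hκdef, mul_inv_rev, inv_inv, hw, ← mul_assoc, hG.ww, one_mul]
  have hg : ∀ i, (u i : P × H).1 = x.1 * s i * d i * G.w * (κ i)⁻¹ * y.1⁻¹ := by
    intro i
    have h1 : x.1⁻¹ * (u i : P × H).1 * y.1 = s i * d i * q i := heq i
    have h2 : (u i : P × H).1 = x.1 * (x.1⁻¹ * (u i : P × H).1 * y.1) * y.1⁻¹ := by group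
    rw [h2, h1, hqκ]
    group
  have hginv : ∀ i, (u i : P × H).1⁻¹ =
      y.1 * κ i * (G.w * (d i)⁻¹ * G.w) * (G.w * (s i)⁻¹) * x.1⁻¹ := by
    intro i
    have h0 : (x.1 * s i * d i * G.w * (κ i)⁻¹ * y.1⁻¹)⁻¹ =
        y.1 * κ i * G.w⁻¹ * (d i)⁻¹ * (s i)⁻¹ * x.1⁻¹ := by group
    rw [hg, h0, hw]
    have h1 : G.w * (d i)⁻¹ * G.w * (G.w * (s i)⁻¹) = G.w * (d i)⁻¹ * (s i)⁻¹ := by
      rw [mul_assoc (G.w * (d i)⁻¹) G.w, ← mul_assoc G.w G.w, hG.ww, one_mul]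
    have h2 : y.1 * κ i * (G.w * (d i)⁻¹ * G.w) * (G.w * (s i)⁻¹) * x.1⁻¹ =
        y.1 * κ i * (G.w * (d i)⁻¹ * G.w * (G.w * (s i)⁻¹)) * x.1⁻¹ := by
      group
    rw [h2, h1]
    group
  -- eigenframes
  have hz : ∀ i : Fin 3, ∃ z : P, Fr G (lpp Γ u i : P × H).1 z ∧
      (∃ e ∈ U, ∃ b ∈ G.Bor, z = x.1 * s i * e * b) ∧
      ∃ e ∈ U, ∃ b ∈ G.Bor, z * G.w = x.1 * s (i + 1) * e * b := by
    intro i
    have hij : i ≠ i + 1 := by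
      fin_cases i <;> decide
    have hji : i + 1 ≠ i := hij.symm
    obtain ⟨z', hz1, ⟨e, he, b, hb, hz2⟩, e', he', b', hb', hz3⟩ := hk₃ (d i) (hD3 (hd i))
      (G.w * (d (i + 1))⁻¹ * G.w) (hD3 (hG.Dpw k _ (hd (i + 1))))
      (G.w * (κ i)⁻¹ * (κ (i + 1) * 1)) (PD_Qm P G.w t.K U hij (hκ i) (hκ (i + 1)) h1U)
      (G.w * (s (i + 1))⁻¹ * (s i * 1)) (PD_Qm P G.w t.S U hji (hs (i + 1)) (hs i) h1U)
    refine ⟨x.1 * s i * z', ?_, ⟨e, hU''U he, b, hb, ?_⟩, ?_⟩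
    · have h1 : (lpp Γ u i : P × H).1 = x.1 * s i * (d i * (G.w * (κ i)⁻¹ * (κ (i + 1) * 1)) *
          (G.w * (d (i + 1))⁻¹ * G.w) * (G.w * (s (i + 1))⁻¹ * (s i * 1))) * (x.1 * s i)⁻¹ := by
        have h2 : (lpp Γ u i : P × H).1 = (u i : P × H).1 * (u (i + 1) : P × H).1⁻¹ := rfl
        rw [h2, hg, hginv]
        group
      change (x.1 * s i * z')⁻¹ * (lpp Γ u i : P × H).1 * (x.1 * s i * z') ∈ G.App
      rw [h1]
      have h3 : (x.1 * s i * z')⁻¹ * (x.1 * s i * (d i * (G.w * (κ i)⁻¹ * (κ (i + 1) * 1)) *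
          (G.w * (d (i + 1))⁻¹ * G.w) * (G.w * (s (i + 1))⁻¹ * (s i * 1))) * (x.1 * s i)⁻¹) *
          (x.1 * s i * z') = z'⁻¹ * (d i * (G.w * (κ i)⁻¹ * (κ (i + 1) * 1)) *
          (G.w * (d (i + 1))⁻¹ * G.w) * (G.w * (s (i + 1))⁻¹ * (s i * 1))) * z' := by
        group
      rw [h3]
      exact hz1
    · rw [hz2]
      group
    · refine ⟨(s (i + 1))⁻¹ * s i * e' * (s i)⁻¹ * s (i + 1),
        hconj e' he' (s i) (Set.mem_iUnion.2 ⟨i, hs i⟩) (s (i + 1))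
          (Set.mem_iUnion.2 ⟨i + 1, hs (i + 1)⟩), b', hb', ?_⟩
      have h4 : x.1 * s i * z' * G.w = x.1 * s i * (z' * G.w) := by group
      rw [h4, hz3]
      group
  choose z hzF hzA hzB using hz
  let A : Fin 3 → Set P := fun i => {p | ∃ s ∈ t.S i, ∃ e ∈ U, ∃ b ∈ G.Bor, p = x.1 * s * e * b}
  let B : Fin 3 → Set P := fun i => {p | ∃ κ ∈ t.K i, ∃ e ∈ U, ∃ b ∈ G.Bor, p = y.1 * κ * e * b}
  have hzA' : ∀ i, z i ∈ A i := by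
    intro i
    obtain ⟨e, he, b, hb, h⟩ := hzA i
    exact ⟨s i, hs i, e, he, b, hb, h⟩
  have hzB' : ∀ i, z i * G.w ∈ A (i + 1) := by
    intro i
    obtain ⟨e, he, b, hb, h⟩ := hzB i
    exact ⟨s (i + 1), hs (i + 1), e, he, b, hb, h⟩
  have hposA : ∀ a ∈ A 0, ∀ b ∈ A 1, ∀ c ∈ A 2, G.Tri a b c := by
    rintro _ ⟨s₀, h₀, e₀, he₀, b₀, hb₀, rfl⟩ _ ⟨s₁, h₁, e₁, he₁, b₁, hb₁, rfl⟩ _
      ⟨s₂, h₂, e₂, he₂, b₂, hb₂, rfl⟩
    rw [hG.Tr _ _ _ b₀ hb₀, i1 _ _ _ b₁ hb₁, i2 _ _ _ b₂ hb₂, mul_assoc, mul_assoc, mul_assoc,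
      hG.Tl]
    exact hWS s₀ h₀ s₁ h₁ s₂ h₂ e₀ he₀ e₁ he₁ e₂ he₂
  have hposB : ∀ a ∈ B 0, ∀ b ∈ B 1, ∀ c ∈ B 2, G.Tri c b a := by
    rintro _ ⟨s₀, h₀, e₀, he₀, b₀, hb₀, rfl⟩ _ ⟨s₁, h₁, e₁, he₁, b₁, hb₁, rfl⟩ _
      ⟨s₂, h₂, e₂, he₂, b₂, hb₂, rfl⟩
    rw [hG.Tr _ _ _ b₂ hb₂, i1 _ _ _ b₁ hb₁, i2 _ _ _ b₀ hb₀, mul_assoc, mul_assoc, mul_assoc,
      hG.Tl]
    exact hWK s₀ h₀ s₁ h₁ s₂ h₂ e₀ he₀ e₁ he₁ e₂ he₂
  have hcA : ∀ i, x.1 * t.c i ∈ A i := fun i =>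
    ⟨t.c i, ht.cS i, 1, h1U, 1, G.Bor.one_mem, by rw [mul_one, mul_one]⟩
  have hAA : ∀ i j, i ≠ j → ∀ a ∈ A i, ∀ b ∈ A j, G.Pos a b :=
    PD_pos P G hG.Ps A (fun i => ⟨_, hcA i⟩) fun a ha b hb c hc => i4 _ _ _ (hposA a ha b hb c hc)
  let zz : Fin 3 → Fin 3 → P := fun i j =>
    if j = i + 1 then z i else if i = j + 1 then z j * G.w else 1
  have hzz1 : ∀ i, zz i (i + 1) = z i := by
    intro i
    change (if i + 1 = i + 1 then z i else _) = z i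
    rw [if_pos rfl]
  have hzz2 : ∀ i, zz (i + 1) i = z i * G.w := by
    intro i
    change (if i = i + 1 + 1 then z (i + 1) else if i + 1 = i + 1 then z i * G.w else 1) = _
    rw [if_neg (by fin_cases i <;> decide), if_pos rfl]
  have hcase : ∀ i j : Fin 3, i ≠ j → j = i + 1 ∨ i = j + 1 := by decide
  refine ⟨A, B, zz, ?_, fun i => by rw [hzz1, hzz2], fun i => ?_⟩
  · refine ⟨hposA, hposB, ?_, ?_, ?_, ?_⟩
    · rintro i j hij _ ⟨κ', hκ', e, he, b, hb, rfl⟩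
      obtain ⟨e', he', b', hb', h1⟩ := hk₂ (d i) (hD2 (hd i)) _
        (PD_Qm P G.w t.K U hij (hκ i) hκ' he)
      refine ⟨s i, hs i, e', he', b' * b, G.Bor.mul_mem hb' hb, ?_⟩
      rw [actP_smul, hg]
      have h2 : x.1 * s i * d i * G.w * (κ i)⁻¹ * y.1⁻¹ * (y.1 * κ' * e * b) =
          x.1 * s i * (d i * (G.w * (κ i)⁻¹ * (κ' * e))) * b := by group
      rw [h2, h1]
      group
    · rintro i j hij _ ⟨s', hs', e, he, b, hb, rfl⟩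
      obtain ⟨e', he', b', hb', h1⟩ := hk₁ (G.w * (d i)⁻¹ * G.w) (hD1 (hG.Dpw k _ (hd i))) _
        (PD_Qm P G.w t.S U hij (hs i) hs' he)
      refine ⟨κ i, hκ i, e', he', b' * b, G.Bor.mul_mem hb' hb, ?_⟩
      have h3 : (u i)⁻¹ • (x.1 * s' * e * b) = (u i : P × H).1⁻¹ * (x.1 * s' * e * b) := rfl
      rw [h3, hginv]
      have h2 : y.1 * κ i * (G.w * (d i)⁻¹ * G.w) * (G.w * (s i)⁻¹) * x.1⁻¹ *
          (x.1 * s' * e * b) = y.1 * κ i * (G.w * (d i)⁻¹ * G.w *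
            (G.w * (s i)⁻¹ * (s' * e))) * b := by group
      rw [h2, h1]
      group
    · intro i j hij
      rcases hcase i j hij with h | h
      · rw [h, hzz1]
        exact hzA' i
      · rw [h, hzz2]
        exact hzB' j
    · intro i j hij
      rcases hcase i j hij with h | h
      · rw [h, hzz1]
        have h1 : (u i * (u (i + 1))⁻¹) • z i =
            z i * ((z i)⁻¹ * (lpp Γ u i : P × H).1 * z i) := by
          have h2 : (u i * (u (i + 1))⁻¹) • z i = (lpp Γ u i : P × H).1 * z i := rfl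
          rw [h2]
          group
        rw [h1]
        exact i6 _ _ (hG.AB (hG.AppA (hzF i)))
      · rw [h, hzz2]
        have h1 : (u (j + 1) * (u j)⁻¹) • (z j * G.w) =
            z j * G.w * (G.w * ((z j)⁻¹ * (lpp Γ u j : P × H).1 * z j)⁻¹ * G.w) := by
          have h2 : (u (j + 1) * (u j)⁻¹) • (z j * G.w) =
              (lpp Γ u j : P × H).1⁻¹ * (z j * G.w) := by
            have h3 : u (j + 1) * (u j)⁻¹ = (lpp Γ u j)⁻¹ := by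
              rw [lpp, mul_inv_rev, inv_inv]
            rw [h3]
            rfl
          rw [h2]
          have h4 : z j * G.w * (G.w * ((z j)⁻¹ * (lpp Γ u j : P × H).1 * z j)⁻¹ * G.w) =
              z j * (G.w * G.w) * ((z j)⁻¹ * (lpp Γ u j : P × H).1 * z j)⁻¹ * G.w := by group
          rw [h4, hG.ww]
          group
        rw [h1]
        exact i6 _ _ (hG.AB (hG.AppA (hG.Appw _ (hzF j))))
  · rw [hzz1]
    have hij : i ≠ i + 1 := by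
      fin_cases i <;> decide
    exact ⟨hzF i, hAA i (i + 1) hij _ (hcA i) _ (hzB' i),
      hAA (i + 1) i hij.symm _ (hcA (i + 1)) _ (hzA' i)⟩

end Pool.Agent.MPEF.U
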