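import Pool.Agent.Lib.MP_ef3f0f_gt.U.K.Spec

set_option autoImplicit false

/-!
# MP_ef3f0f_gt, Theorem U, Part K: good pants
-/

namespace Pool.Agent.MPEF.U

open MeasureTheory Topology
open scoped ENNReal Pointwise
open Pool.Agent.MPEF (SurfaceGroup)

variable (P H : Type) [Group P] [Group H] [TopologicalSpace P] [TopologicalSpace H]
  [IsTopologicalGroup P] [IsTopologicalGroup H] [LocallyCompactSpace P] [LocallyCompactSpace H]
  [T2Space P] [T2Space H] [SecondCountableTopology P] [SecondCountableTopology H]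
  [MeasurableSpace P] [MeasurableSpace H] [BorelSpace P] [BorelSpace H]

theorem tPK : S_fr P H → S_PD P H → S_Pants → S_PK P H := by
  intro hfr hPD hPants G hG t ht
  obtain ⟨k, hk⟩ := hPD G hG t ht
  refine ⟨k, fun Γ x y u hu => ?_⟩
  obtain ⟨A, B, zz, hpd, hzz, hF⟩ := hk Γ x y u hu
  refine ⟨⟨fun i => zz i (i + 1), hF⟩, fun z hz => ?_⟩
  obtain ⟨hCO, -, hscale, -, -⟩ := hfr G hG Γ
  have hst := hPants Γ P G.Tri hCO u A B zz hpd
  have heq : (fun i => fr G Γ (lpp Γ u i) (z i)) =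
      ![fl G.Tri (u 0 * (u 1)⁻¹) (zz 0 1) (zz 1 0), fl G.Tri (u 1 * (u 2)⁻¹) (zz 1 2) (zz 2 1),
        fl G.Tri (u 2 * (u 0)⁻¹) (zz 2 0) (zz 0 2)] := by
    have h1 : ∀ i, fr G Γ (lpp Γ u i) (z i) =
        fl G.Tri (lpp Γ u i) (zz i (i + 1)) (zz (i + 1) i) := by
      intro i
      obtain ⟨hf1, hp1⟩ := hz i
      obtain ⟨hf2, hp2, -⟩ := hF i
      obtain ⟨-, huq⟩ := hG.UQ (lpp Γ u i : P × H).1 (zz i (i + 1)) (z i) hf2 hf1
      have hA : (zz i (i + 1))⁻¹ * z i ∈ G.A := huq (x.1 * t.c i) hp2 hp1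
      have h2 := hscale (lpp Γ u i) (zz i (i + 1)) _ hA
      rw [mul_inv_cancel_left] at h2
      rw [h2, hzz i]
      rfl
    funext i
    rw [h1 i]
    fin_cases i <;> rfl
  rw [heq]
  exact hst

end Pool.Agent.MPEF.U
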