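import Pool.Agent.Lib.MP_ef3f0f_gt.U.K.Spec
import Pool.Agent.Lib.MP_ef3f0f_gt.U.Z.Spec

set_option autoImplicit false

/-!
# MP_ef3f0f_gt, Theorem U, Part K: the dual functional (`S_Phi`)

Gordan alternative for the finite set of the good pants (with the flipped ones) from a fundamental
domain.
-/

namespace Pool.Agent.MPEF.U

open MeasureTheory Topology
open scoped ENNReal Pointwise
open Pool.Agent.MPEF (SurfaceGroup)

/-- The conclusion of `S_PK` for one theta type and one depth. -/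
private def PhiPK (P H : Type) [Group P] [Group H] (G : PG P) (t : Th P) (k : ℕ) : Prop :=
  ∀ (Γ : Subgroup (P × H)) (x y : P × H)
    (u : Fin 3 → Γ), (∀ i, (x⁻¹ * (u i : P × H) * y).1 ∈ G.W (t.S i) (t.K i) k) →
    (∃ z : Fin 3 → P, ∀ i, Fr G (lpp Γ u i : P × H).1 (z i) ∧
      G.Pos (x.1 * t.c i) (z i * G.w) ∧ G.Pos (x.1 * t.c (i + 1)) (z i)) ∧
    ∀ z : Fin 3 → P, (∀ i, Fr G (lpp Γ u i : P × H).1 (z i) ∧
      G.Pos (x.1 * t.c i) (z i * G.w)) → St 0 3 fun i => fr G Γ (lpp Γ u i) (z i)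

private lemma Phi_W {P : Type} [Group P] (G : PG P) (hs : ∀ k, G.Dp (k + 1) ⊆ G.Dp k)
    (S K : Set P) {k l : ℕ} (h : l ≤ k) : G.W S K k ⊆ G.W S K l := by
  have hD : G.Dp k ⊆ G.Dp l := antitone_nat_of_succ_le (f := G.Dp) hs h
  rintro g ⟨s, hs, t, ht, q, hq, rfl⟩
  exact ⟨s, hs, t, hD ht, q, hq, rfl⟩

private lemma PhiPK_mono {P H : Type} [Group P] [Group H] (G : PG P)
    (hs : ∀ k, G.Dp (k + 1) ⊆ G.Dp k) (t : Th P) {k l : ℕ} (h : l ≤ k) (hl : PhiPK P H G t l) :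
    PhiPK P H G t k := fun Γ x y u hu =>
  hl Γ x y u fun i => Phi_W G hs _ _ h (hu i)

/-- The theta type `t` or its flip. -/
private def PhiT {P : Type} [Group P] (G : PG P) (t : Th P) (f : Bool) : Th P :=
  match f with
  | false => t
  | true => t.flip G

/-- The windows, possibly flipped. -/
private def PhiQ {α : Type} (Q : Fin 3 → Set α) (f : Bool) (j : Fin 3) : Set α :=
  match f with
  | false => Q j
  | true => Q (-j)

section Alg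

variable {P H : Type} [Group P] [Group H] [TopologicalSpace P] [TopologicalSpace H]
  [MeasurableSpace P] [MeasurableSpace H]

/-- The set of triples of framed loops of the thetas with both ends in `F`. -/
private def PhiTT (G : PG P) (D : Dat P H) (F : Set (P × H)) (Q : Fin 3 → Set (P × H))
    (κ : Fin 3 → P) : Set (Fin 3 → FL D.Γ P) :=
  {c : Fin 3 → FL D.Γ P | ∃ x ∈ F, ∃ y ∈ F, ∃ u : Fin 3 → D.Γ,
      (∀ j, x⁻¹ * (u j : P × H) * y ∈ Q j) ∧ ∃ z : Fin 3 → P,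
        (∀ j, Fr G (lpp D.Γ u j : P × H).1 (z j) ∧ G.Pos (x.1 * κ j) (z j * G.w)) ∧
        c = fun j => fr G D.Γ (lpp D.Γ u j) (z j)}

/-- The functional from an odd invariant function on framed loops. -/
private noncomputable def PhiF (G : PG P) (D : Dat P H) (φ₀ : FL D.Γ P → ℝ) (l : D.Γ) (z : P) :
    ℝ :=
  φ₀ (fr G D.Γ l z) - φ₀ (fr G D.Γ l (z * G.J))

omit [TopologicalSpace H] in
private lemma Phi_adm (G : PG P) (hG : G.Ok) (D : Dat P H) (φ₀ : FL D.Γ P → ℝ)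
    (h₁ : ∀ (t : D.Γ) l, φ₀ (t • l) = φ₀ l) (h₂ : ∀ l : FL D.Γ P, φ₀ l.inv = -φ₀ l)
    (hf2 : ∀ (g l : D.Γ) (z : P),
      g • fr G D.Γ l z = fr G D.Γ (g * l * g⁻¹) ((g : P × H).1 * z))
    (hf3 : ∀ (l : D.Γ) (z : P), ∀ d ∈ G.A, fr G D.Γ l (z * d) = fr G D.Γ l z)
    (hf4 : ∀ (l : D.Γ) (z : P), (fr G D.Γ l z).inv = fr G D.Γ l⁻¹ (z * G.w)) :
    Adm D G (PhiF G D φ₀) where
  conj g l z := by
    rw [PhiF, PhiF, mul_assoc (g : P × H).1 z G.J, ← hf2, ← hf2, h₁, h₁]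
  scale l z d hd := by
    rw [PhiF, PhiF, hf3 l z d hd, mul_assoc z d G.J, ← hG.JA d hd, ← mul_assoc z G.J d,
      hf3 _ _ d hd]
  inv l z := by
    rw [PhiF, PhiF, ← hf4, mul_assoc z G.w G.J, ← hG.Jw, ← mul_assoc z G.J G.w, ← hf4, h₂, h₂]
    ring
  jodd l z := by
    rw [PhiF, PhiF, mul_assoc z G.J G.J, hG.JJ, mul_one]
    ring

omit [TopologicalSpace H] in
/-- Positivity on the thetas with both ends in the fundamental domain. -/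
private lemma Phi_pos (G : PG P) (hG : G.Ok) (D : Dat P H) (φ₀ : FL D.Γ P → ℝ)
    (h₂ : ∀ l : FL D.Γ P, φ₀ l.inv = -φ₀ l)
    (hf4 : ∀ (l : D.Γ) (z : P), (fr G D.Γ l z).inv = fr G D.Γ l⁻¹ (z * G.w))
    (hf5 : ∀ l z : P, Fr G l z → Fr G l⁻¹ (z * G.w) ∧ Fr G l (z * G.J))
    (hv : ∀ (l : D.Γ) (z k : P), Fr G (l : P × H).1 z → G.Pos k (z * G.w) →
      ph G (PhiF G D φ₀) l k = PhiF G D φ₀ l z)
    (F : Set (P × H)) (t : Th P) (Q : Fin 3 → Set (P × H)) (k₀ : ℕ) (hPK : PhiPK P H G t k₀)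
    (hQ : ∀ j, ∀ g ∈ Q j, g.1 ∈ G.W (t.S j) (t.K j) k₀)
    (hp : ∀ f : Bool, ∀ c ∈ PhiTT G D F (PhiQ Q f) (PhiT G t f).c,
      0 < φ₀ (c 0) + φ₀ (c 1) + φ₀ (c 2))
    (x : P × H) (hx : x ∈ F) (y : P × H) (hy : y ∈ F) (u : Fin 3 → D.Γ)
    (hu : ∀ j, x⁻¹ * (u j : P × H) * y ∈ Q j) :
    0 < dl G (PhiF G D φ₀) (t.c 0) (t.c 1) (t.c 2) x (u 0) (u 1) (u 2) := by
  obtain ⟨⟨z, hz⟩, -⟩ := hPK D.Γ x y u fun i => hQ i _ (hu i)
  have e0 : ph G (PhiF G D φ₀) (u 0 * (u 1)⁻¹) (x.1 * t.c 0) =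
      PhiF G D φ₀ (lpp D.Γ u 0) (z 0) := hv _ _ _ (hz 0).1 (hz 0).2.1
  have e1 : ph G (PhiF G D φ₀) (u 1 * (u 2)⁻¹) (x.1 * t.c 1) =
      PhiF G D φ₀ (lpp D.Γ u 1) (z 1) := hv _ _ _ (hz 1).1 (hz 1).2.1
  have e2 : ph G (PhiF G D φ₀) (u 2 * (u 0)⁻¹) (x.1 * t.c 2) =
      PhiF G D φ₀ (lpp D.Γ u 2) (z 2) := hv _ _ _ (hz 2).1 (hz 2).2.1
  have p1 : 0 < φ₀ (fr G D.Γ (lpp D.Γ u 0) (z 0)) + φ₀ (fr G D.Γ (lpp D.Γ u 1) (z 1)) +
      φ₀ (fr G D.Γ (lpp D.Γ u 2) (z 2)) :=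
    hp false (fun j => fr G D.Γ (lpp D.Γ u j) (z j))
      ⟨x, hx, y, hy, u, hu, z, fun j => ⟨(hz j).1, (hz j).2.1⟩, rfl⟩
  have hm : ∀ j : Fin 3, -(j + 1) + 1 = -j := by decide
  have hl : ∀ j : Fin 3, lpp D.Γ (fun j => u (-j)) j = (lpp D.Γ u (-(j + 1)))⁻¹ := by
    intro j
    show u (-j) * (u (-(j + 1)))⁻¹ = (u (-(j + 1)) * (u (-(j + 1) + 1))⁻¹)⁻¹
    rw [hm, mul_inv_rev, inv_inv]
  have hwJ : ∀ p : P, p * G.w * G.J = p * G.J * G.w := fun p => by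
    rw [mul_assoc, ← hG.Jw, ← mul_assoc]
  have hFr : ∀ j : Fin 3, Fr G (lpp D.Γ (fun j => u (-j)) j : P × H).1
      (z (-(j + 1)) * G.w * G.J) := by
    intro j
    rw [hl j]
    exact (hf5 _ _ (hf5 _ _ (hz (-(j + 1))).1).1).2
  have hPos : ∀ j : Fin 3, G.Pos (x.1 * (t.c (-j) * G.J)) (z (-(j + 1)) * G.w * G.J * G.w) := by
    intro j
    rw [hwJ, mul_assoc (z (-(j + 1)) * G.J) G.w G.w, hG.ww, mul_one, ← mul_assoc, hG.PJ]
    have h := (hz (-(j + 1))).2.2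
    rwa [hm] at h
  have p2 := hp true (fun j => fr G D.Γ (lpp D.Γ (fun j => u (-j)) j) (z (-(j + 1)) * G.w * G.J))
      ⟨x, hx, y, hy, fun j => u (-j), fun j => hu (-j), fun j => z (-(j + 1)) * G.w * G.J,
        fun j => ⟨hFr j, hPos j⟩, rfl⟩
  have q : ∀ j : Fin 3, φ₀ (fr G D.Γ (lpp D.Γ (fun j => u (-j)) j) (z (-(j + 1)) * G.w * G.J)) =
      -φ₀ (fr G D.Γ (lpp D.Γ u (-(j + 1))) (z (-(j + 1)) * G.J)) := by
    intro j
    rw [hl, hwJ, ← hf4, h₂]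
  have p3 : 0 < -φ₀ (fr G D.Γ (lpp D.Γ u 2) (z 2 * G.J)) +
      -φ₀ (fr G D.Γ (lpp D.Γ u 1) (z 1 * G.J)) +
      -φ₀ (fr G D.Γ (lpp D.Γ u 0) (z 0 * G.J)) := by
    have q0 := q 0
    have q1 := q 1
    have q2 := q 2
    rw [show (-(0 + 1) : Fin 3) = 2 from rfl] at q0
    rw [show (-(1 + 1) : Fin 3) = 1 from rfl] at q1
    rw [show (-(2 + 1) : Fin 3) = 0 from rfl] at q2
    rw [← q0, ← q1, ← q2]
    exact p2
  rw [dl, e0, e1, e2, PhiF, PhiF, PhiF]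
  linarith

omit [TopologicalSpace P] [TopologicalSpace H] in
/-- The value of `dl` on a translated theta. -/
private lemma Phi_dl (G : PG P) (D : Dat P H) (φ : D.Γ → P → ℝ)
    (hv : ∀ (g l : D.Γ) (k : P), ph G φ (g * l * g⁻¹) ((g : P × H).1 * k) = ph G φ l k)
    (c₀ c₁ c₂ : P) (x : P × H) (u v w g g' : D.Γ) :
    dl G φ c₀ c₁ c₂ ((g : P × H) * x) (g * u * g'⁻¹) (g * v * g'⁻¹) (g * w * g'⁻¹) =
      dl G φ c₀ c₁ c₂ x u v w := by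
  have h : ∀ a b : D.Γ, g * a * g'⁻¹ * (g * b * g'⁻¹)⁻¹ = g * (a * b⁻¹) * g⁻¹ := by
    intro a b
    group
  have hk : ∀ k : P, ((g : P × H) * x).1 * k = (g : P × H).1 * (x.1 * k) := fun k =>
    mul_assoc _ _ _
  rw [dl, dl, h, h, h, hk, hk, hk, hv, hv, hv]

end Alg

private lemma Phi_k0 {P H : Type} [Group P] [Group H] [TopologicalSpace P] (G : PG P)
    (hG : G.Ok) (hPK : ∀ t : Th P, t.Ok G → ∃ k, PhiPK P H G t k)
    (hfl : ∀ t : Th P, t.Ok G → (t.flip G).Ok G) (L : List (Th P)) :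
    (∀ t ∈ L, t.Ok G) → ∃ k₀, ∀ t ∈ L, ∀ f, PhiPK P H G (PhiT G t f) k₀ := by
  induction L with
  | nil => intro _; exact ⟨0, by simp⟩
  | cons t L ih =>
    intro hL
    obtain ⟨k₁, h₁⟩ := ih fun s hs => hL s (List.mem_cons_of_mem _ hs)
    have ht := hL t List.mem_cons_self
    obtain ⟨k₂, h₂⟩ := hPK t ht
    obtain ⟨k₃, h₃⟩ := hPK _ (hfl t ht)
    refine ⟨k₁ + k₂ + k₃, fun s hs f => ?_⟩
    rcases List.mem_cons.1 hs with rfl | hs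
    · cases f
      · exact PhiPK_mono G hG.Dps _ (by omega) h₂
      · exact PhiPK_mono G hG.Dps _ (by omega) h₃
    · exact PhiPK_mono G hG.Dps _ (by omega) (h₁ s hs f)

variable (P H : Type) [Group P] [Group H] [TopologicalSpace P] [TopologicalSpace H]
  [IsTopologicalGroup P] [IsTopologicalGroup H] [LocallyCompactSpace P] [LocallyCompactSpace H]
  [T2Space P] [T2Space H] [SecondCountableTopology P] [SecondCountableTopology H]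
  [MeasurableSpace P] [MeasurableSpace H] [BorelSpace P] [BorelSpace H]

theorem tPhi : S_inst P H → S_fr P H → S_Flip P → S_PK P H → S_FinF P H → S_val P H →
    S_Match → S_Glue → S_SurfEnd → S_Phi P H := by
  intro hinst hfr hFlip hPK hFinF hval hMatch hGlue hSurf G hG D hD hns L hL
  obtain ⟨-, hf2, hf3, hf4, hf5⟩ := hfr G hG D.Γ
  obtain ⟨hfl, hW⟩ := hFlip G hG
  obtain ⟨-, -, -, -, -, -, -, -, F, hF, hcov⟩ := hinst D hD
  obtain ⟨k₀, hk₀⟩ := Phi_k0 (H := H) G hG (fun t ht => hPK G hG t ht) hfl L hL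
  refine ⟨k₀, ?_⟩
  intro ι _ t Q htL hQc hQ
  have hwin : ∀ i f j, ∀ g ∈ PhiQ (Q i) f j,
      g.1 ∈ G.W ((PhiT G (t i) f).S j) ((PhiT G (t i) f).K j) k₀ := by
    intro i f j g hg
    cases f
    · exact hQ i j g hg
    · show g.1 ∈ G.W ((t i).S (-j) * {G.J}) ((t i).K (-j) * {G.J}) k₀
      rw [hW]
      exact hQ i (-j) g hg
  have hcpt : ∀ i f j, IsCompact (PhiQ (Q i) f j) := by
    intro i f j
    cases f
    · exact hQc i j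
    · exact hQc i (-j)
  have hfin : ∀ i f, (PhiTT G D F (PhiQ (Q i) f) (PhiT G (t i) f).c).Finite := by
    intro i f
    refine hFinF G hG D hD F _ _ hF (hcpt i f) fun x _ y _ u hu => ?_
    obtain ⟨⟨z, hz⟩, -⟩ := hk₀ (t i) (htL i) f D.Γ x y u fun j => hwin i f j _ (hu j)
    exact ⟨z, fun j => ⟨(hz j).1, (hz j).2.1⟩⟩
  have hSt : ∀ i f, ∀ c ∈ PhiTT G D F (PhiQ (Q i) f) (PhiT G (t i) f).c, St 0 3 c := by
    rintro i f c ⟨x, -, y, -, u, hu, z, hz, rfl⟩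
    exact (hk₀ (t i) (htL i) f D.Γ x y u fun j => hwin i f j _ (hu j)).2 z hz
  let I : Type := Σ p : ι × Bool, PhiTT G D F (PhiQ (Q p.1) p.2) (PhiT G (t p.1) p.2).c
  have hI1 : ∀ p : ι × Bool,
      Finite (PhiTT G D F (PhiQ (Q p.1) p.2) (PhiT G (t p.1) p.2).c) := fun p =>
    (hfin p.1 p.2).to_subtype
  have hI : Finite I := inferInstanceAs
    (Finite (Σ p : ι × Bool, PhiTT G D F (PhiQ (Q p.1) p.2) (PhiT G (t p.1) p.2).c))
  have := Fintype.ofFinite I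
  let d : I → Fin 3 → FL D.Γ P := fun q => q.2.1
  rcases hMatch D.Γ (FL D.Γ P) I FL.inv (fun l => FL.inv_inv l)
    (fun t l => (FL.smul_inv t l).symm) d with ⟨φ₀, h₁, h₂, h₃⟩ | ⟨n, hn, f, σ, hσ, hσ', hm⟩
  · refine ⟨PhiF G D φ₀, Phi_adm G hG D φ₀ h₁ h₂ hf2 hf3 hf4, ?_⟩
    obtain ⟨hv1, hv2⟩ := hval G hG D (PhiF G D φ₀) (Phi_adm G hG D φ₀ h₁ h₂ hf2 hf3 hf4)
    intro i x y u hu
    obtain ⟨g, hg, hgx⟩ := hcov x
    obtain ⟨g', hg', hgy⟩ := hcov y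
    have hu' : ∀ j, (g * x)⁻¹ * ((⟨g, hg⟩ * u j * ⟨g', hg'⟩⁻¹ : D.Γ) : P × H) * (g' * y) ∈
        Q i j := by
      intro j
      have e : (g * x)⁻¹ * ((⟨g, hg⟩ * u j * ⟨g', hg'⟩⁻¹ : D.Γ) : P × H) * (g' * y) =
          x⁻¹ * (u j : P × H) * y := by
        show (g * x)⁻¹ * (g * (u j : P × H) * g'⁻¹) * (g' * y) = _
        group
      rw [e]
      exact hu j
    have key := Phi_pos G hG D φ₀ h₂ hf4 (fun l z h => ⟨(hf5 l z h).1, (hf5 l z h).2.1⟩) hv1 F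
      (t i) (Q i) k₀ (hk₀ (t i) (htL i) false) (hQ i)
      (fun f c hc => h₃ ⟨(i, f), ⟨c, hc⟩⟩) (g * x) hgx (g' * y) hgy
      (fun j => ⟨g, hg⟩ * u j * ⟨g', hg'⟩⁻¹) hu'
    have e := Phi_dl G D (PhiF G D φ₀) hv2 ((t i).c 0) ((t i).c 1) ((t i).c 2) x (u 0) (u 1)
      (u 2) ⟨g, hg⟩ ⟨g', hg'⟩
    rw [← e]
    exact key
  · exfalso
    obtain ⟨h, hh, c, hc⟩ := hGlue D.Γ P n hn (fun i => d (f i))
      (fun i => hSt _ _ _ (f i).2.2) σ hσ hσ' hm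
    obtain ⟨ψ, hψ⟩ := hSurf D.Γ P h c hc
    refine hns h hh ψ ((injective_iff_map_eq_one ψ).2 fun a ha => hψ a fun x => ?_)
    rw [ha, one_smul]

end Pool.Agent.MPEF.U
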