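import Pool.Agent.Lib.MP_ef3f0f_gt.U.K.Spec

set_option autoImplicit false

/-!
# MP_ef3f0f_gt, Theorem U, Part K: framed loops
-/

namespace Pool.Agent.MPEF.U

open MeasureTheory Topology
open scoped ENNReal Pointwise
open Pool.Agent.MPEF (SurfaceGroup)

section

variable (P H : Type) [Group P] [Group H] [TopologicalSpace P] [TopologicalSpace H]
  [IsTopologicalGroup P] [IsTopologicalGroup H] [LocallyCompactSpace P] [LocallyCompactSpace H]
  [T2Space P] [T2Space H] [SecondCountableTopology P] [SecondCountableTopology H]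
  [MeasurableSpace P] [MeasurableSpace H] [BorelSpace P] [BorelSpace H]

theorem tfr : S_Inv P → S_Dm → S_fr P H := by
  intro hInv hDm G hG Γ
  obtain ⟨-, -, -, -, i5, i6, -⟩ := hInv G hG
  have hCO : CO Γ G.Tri := by
    refine ⟨fun g x y z => ?_, hG.Tc, hG.Ta, hG.Tt, fun x y z h => i5 x y (hG.TP x y z h)⟩
    exact hG.Tl _ x y z
  obtain ⟨-, -, -, -, -, d6, -, -, d9, d10⟩ := hDm Γ P G.Tri hCO
  have hw : G.w⁻¹ = G.w := inv_eq_of_mul_eq_one_left hG.ww
  have hJ : G.J⁻¹ = G.J := inv_eq_of_mul_eq_one_left hG.JJ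
  refine ⟨hCO, fun g l z => ?_, fun l z d hd => ?_, fun l z => ?_, fun l z hl => ?_⟩
  · unfold fr
    rw [d9, actP_smul, actP_smul, mul_assoc (g : P × H).1 z G.w]
  · have e1 : Eqv G.Tri (z * d) z := i6 z d (hG.AB hd)
    have e2 : Eqv G.Tri (z * d * G.w) (z * G.w) := by
      have h1 : z * d * G.w = z * G.w * (G.w * d * G.w) := by
        calc z * d * G.w = z * (G.w * G.w) * d * G.w := by rw [hG.ww, mul_one]
          _ = z * G.w * (G.w * d * G.w) := by group
      rw [h1]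
      exact i6 _ _ (hG.AB (hG.wA d hd))
    unfold fr fl
    rw [d6 _ _ _ _ e1 e2, d6 _ _ _ _ e2 e1]
  · unfold fr
    rw [d10, mul_assoc, hG.ww, mul_one]
  · have hl' : z⁻¹ * l * z ∈ G.App := hl
    have hA : z⁻¹ * l * z ∈ G.A := hG.AppA hl'
    refine ⟨?_, ?_, fun d hd => ?_, fun g => ?_⟩
    · show (z * G.w)⁻¹ * l⁻¹ * (z * G.w) ∈ G.App
      have e : (z * G.w)⁻¹ * l⁻¹ * (z * G.w) = G.w * (z⁻¹ * l * z)⁻¹ * G.w := by
        rw [mul_inv_rev, hw]
        group
      rw [e]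
      exact hG.Appw _ hl'
    · show (z * G.J)⁻¹ * l * (z * G.J) ∈ G.App
      have e : (z * G.J)⁻¹ * l * (z * G.J) = z⁻¹ * l * z := by
        calc (z * G.J)⁻¹ * l * (z * G.J) = G.J * (z⁻¹ * l * z) * G.J := by
              rw [mul_inv_rev, hJ]
              group
          _ = z⁻¹ * l * z := by rw [hG.JA _ hA, mul_assoc, hG.JJ, mul_one]
      rw [e]
      exact hl'
    · show (z * d)⁻¹ * l * (z * d) ∈ G.App
      have e : (z * d)⁻¹ * l * (z * d) = z⁻¹ * l * z := by
        calc (z * d)⁻¹ * l * (z * d) = d⁻¹ * ((z⁻¹ * l * z) * d) := by group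
          _ = z⁻¹ * l * z := by rw [hG.comm _ hA d hd, inv_mul_cancel_left]
      rw [e]
      exact hl'
    · show (g * z)⁻¹ * (g * l * g⁻¹) * (g * z) ∈ G.App
      have e : (g * z)⁻¹ * (g * l * g⁻¹) * (g * z) = z⁻¹ * l * z := by group
      rw [e]
      exact hl'

end

end Pool.Agent.MPEF.U
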