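import Pool.Agent.Lib.MP_ef3f0f_gt.U.K.Spec

/-! # Theorem U, Part K, module val (helper47): the value of `ph` -/

set_option autoImplicit false
set_option linter.unusedSectionVars false

namespace Pool.Agent.MPEF.U

open MeasureTheory Topology
open scoped ENNReal Pointwise
open Pool.Agent.MPEF (SurfaceGroup)

variable (P H : Type) [Group P] [Group H] [TopologicalSpace P] [TopologicalSpace H]
  [IsTopologicalGroup P] [IsTopologicalGroup H] [LocallyCompactSpace P] [LocallyCompactSpace H]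
  [T2Space P] [T2Space H] [SecondCountableTopology P] [SecondCountableTopology H]
  [MeasurableSpace P] [MeasurableSpace H] [BorelSpace P] [BorelSpace H]

theorem tval : S_fr P H → S_val P H := by
  intro hfr G hG D φ hφ
  obtain ⟨-, -, -, -, hFr⟩ := hfr G hG D.Γ
  have h1 : ∀ (l : D.Γ) (z k : P), Fr G (l : P × H).1 z → G.Pos k (z * G.w) →
      ph G φ l k = φ l z := by
    intro l z k hz hk
    have hex : ∃ z, Fr G (l : P × H).1 z ∧ G.Pos k (z * G.w) := ⟨z, hz, hk⟩
    unfold ph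
    rw [dif_pos hex]
    have hA : z⁻¹ * hex.choose ∈ G.A :=
      (hG.UQ (l : P × H).1 z hex.choose hz hex.choose_spec.1).2 k hk hex.choose_spec.2
    have h2 := hφ.scale l z _ hA
    rw [mul_inv_cancel_left] at h2
    exact h2
  refine ⟨h1, ?_⟩
  intro g l k
  by_cases hex : ∃ z, Fr G (l : P × H).1 z ∧ G.Pos k (z * G.w)
  · obtain ⟨z, hz, hk⟩ := hex
    have h3 : Fr G ((g * l * g⁻¹ : D.Γ) : P × H).1 ((g : P × H).1 * z) :=
      (hFr (l : P × H).1 z hz).2.2.2 (g : P × H).1
    have h4 : G.Pos ((g : P × H).1 * k) ((g : P × H).1 * z * G.w) := by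
      rw [mul_assoc]
      exact (hG.Pl _ _ _).2 hk
    rw [h1 _ _ _ h3 h4, h1 l z k hz hk, hφ.conj g l z]
  · have hex' : ¬ ∃ z, Fr G ((g * l * g⁻¹ : D.Γ) : P × H).1 z ∧
        G.Pos ((g : P × H).1 * k) (z * G.w) := by
      rintro ⟨z, hz, hk⟩
      apply hex
      refine ⟨((g : P × H).1)⁻¹ * z, ?_, ?_⟩
      · have h5 := (hFr _ z hz).2.2.2 ((g : P × H).1)⁻¹
        have h6 : ((g : P × H).1)⁻¹ * ((g * l * g⁻¹ : D.Γ) : P × H).1 * (((g : P × H).1)⁻¹)⁻¹ =
            (l : P × H).1 := by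
          change ((g : P × H).1)⁻¹ * ((g : P × H).1 * (l : P × H).1 * ((g : P × H).1)⁻¹) *
            (((g : P × H).1)⁻¹)⁻¹ = (l : P × H).1
          group
        rwa [h6] at h5
      · rw [← hG.Pl (g : P × H).1, ← mul_assoc, mul_inv_cancel_left]
        exact hk
    unfold ph
    rw [dif_neg hex, dif_neg hex']

end Pool.Agent.MPEF.U
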