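import Pool.Agent.Lib.MP_ef3f0f_gt.U.F.CTc
import Pool.Agent.Lib.MP_ef3f0f_gt.U.F.DF
import Pool.Agent.Lib.MP_ef3f0f_gt.U.G.All
import Pool.Agent.Lib.MP_ef3f0f_gt.U.J.All
import Pool.Agent.Lib.MP_ef3f0f_gt.U.K.EF
import Pool.Agent.Lib.MP_ef3f0f_gt.U.K.FinF
import Pool.Agent.Lib.MP_ef3f0f_gt.U.K.Flip
import Pool.Agent.Lib.MP_ef3f0f_gt.U.K.Inv
import Pool.Agent.Lib.MP_ef3f0f_gt.U.K.PD
import Pool.Agent.Lib.MP_ef3f0f_gt.U.K.PK
import Pool.Agent.Lib.MP_ef3f0f_gt.U.K.Phi
import Pool.Agent.Lib.MP_ef3f0f_gt.U.K.Win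
import Pool.Agent.Lib.MP_ef3f0f_gt.U.K.fr
import Pool.Agent.Lib.MP_ef3f0f_gt.U.K.val

set_option autoImplicit false

/-! # MP_ef3f0f_gt, Theorem U, Part K: the statements of `U/K/Spec.lean` without hypotheses -/

namespace Pool.Agent.MPEF.U

open MeasureTheory Topology
open scoped ENNReal Pointwise

section OnPK

variable (P : Type) [Group P] [TopologicalSpace P] [IsTopologicalGroup P]
  [LocallyCompactSpace P] [T2Space P] [SecondCountableTopology P]

theorem aInv : S_Inv P := tInv P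

theorem aEF : S_EF P := tEF P

theorem aWin : S_Win P := tWin P

theorem aFlip : S_Flip P := tFlip P

end OnPK

section OnPHK

variable (P H : Type) [Group P] [Group H] [TopologicalSpace P] [TopologicalSpace H]
  [IsTopologicalGroup P] [IsTopologicalGroup H] [LocallyCompactSpace P] [LocallyCompactSpace H]
  [T2Space P] [T2Space H] [SecondCountableTopology P] [SecondCountableTopology H]
  [MeasurableSpace P] [MeasurableSpace H] [BorelSpace P] [BorelSpace H]

theorem afr : S_fr P H := tfr P H (aInv P) aDm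

theorem aPD : S_PD P H := tPD P H (aInv P) (tCTc P (tDF P)) (aEF P) (aWin P)

theorem aPK : S_PK P H := tPK P H (afr P H) (aPD P H) aPants

theorem aFinF : S_FinF P H := tFinF P H (afr P H)

theorem aval : S_val P H := tval P H (afr P H)

theorem aPhi : S_Phi P H :=
  tPhi P H (ainst P H) (afr P H) (aFlip P) (aPK P H) (aFinF P H) (aval P H) aMatch aGlue aSurfEnd

end OnPHK

end Pool.Agent.MPEF.U
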