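import Pool.Agent.Lib.MP_ef3f0f_gt.U.K.Spec

set_option autoImplicit false

namespace Pool.Agent.MPEF.U

open MeasureTheory Topology
open scoped ENNReal Pointwise
open Pool.Agent.MPEF (SurfaceGroup)

variable (P : Type) [Group P] [TopologicalSpace P] [IsTopologicalGroup P]
  [LocallyCompactSpace P] [T2Space P] [SecondCountableTopology P]

omit [LocallyCompactSpace P] [T2Space P] [SecondCountableTopology P] in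
private theorem Win_aux (G : PG P) (hG : G.Ok) (A B C : Set P) (hA : IsCompact A)
    (hB : IsCompact B) (hC : IsCompact C) (h : ∀ a ∈ A, ∀ b ∈ B, ∀ c ∈ C, G.Tri a b c) :
    ∃ U ∈ 𝓝 (1 : P), ∀ a ∈ A, ∀ b ∈ B, ∀ c ∈ C, ∀ e₀ ∈ U, ∀ e₁ ∈ U, ∀ e₂ ∈ U,
      G.Tri (a * e₀) (b * e₁) (c * e₂) := by
  have hopen : IsOpen {q : (P × P × P) × (P × P × P) |
      G.Tri (q.1.1 * q.2.1) (q.1.2.1 * q.2.2.1) (q.1.2.2 * q.2.2.2)} := by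
    have h1 : Continuous fun q : (P × P × P) × (P × P × P) =>
        (q.1.1 * q.2.1, q.1.2.1 * q.2.2.1, q.1.2.2 * q.2.2.2) := by fun_prop
    exact hG.To.preimage h1
  obtain ⟨u, v, -, hv, hu', hv', huv⟩ := generalized_tube_lemma (hA.prod (hB.prod hC))
    (isCompact_singleton (x := ((1 : P), (1 : P), (1 : P)))) hopen (by
      rintro ⟨⟨a, b, c⟩, e⟩ ⟨⟨ha, hb, hc⟩, he⟩
      have he' : e = (1, 1, 1) := he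
      subst he'
      change G.Tri (a * 1) (b * 1) (c * 1)
      rw [mul_one, mul_one, mul_one]
      exact h a ha b hb c hc)
  have hv1 : v ∈ 𝓝 ((1 : P), (1 : P), (1 : P)) := hv.mem_nhds (hv' rfl)
  obtain ⟨U₁, hU₁, V, hV, hUV⟩ := mem_nhds_prod_iff.1 hv1
  obtain ⟨U₂, hU₂, U₃, hU₃, hUU⟩ := mem_nhds_prod_iff.1 hV
  refine ⟨U₁ ∩ (U₂ ∩ U₃), Filter.inter_mem hU₁ (Filter.inter_mem hU₂ hU₃), ?_⟩
  intro a ha b hb c hc e₀ h₀ e₁ h₁ e₂ h₂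
  have h3 : ((a, b, c), (e₀, e₁, e₂)) ∈ u ×ˢ v := by
    refine ⟨hu' ⟨ha, hb, hc⟩, hUV ⟨h₀.1, hUU ⟨h₁.2.1, h₂.2.2⟩⟩⟩
  exact huv h3

theorem tWin : S_Win P := by
  intro G hG t ht
  obtain ⟨U₁, hU₁, h1⟩ := Win_aux P G hG (t.S 0) (t.S 1) (t.S 2) (ht.Sc 0) (ht.Sc 1) (ht.Sc 2)
    ht.TS
  obtain ⟨U₂, hU₂, h2⟩ := Win_aux P G hG (t.K 2) (t.K 1) (t.K 0) (ht.Kc 2) (ht.Kc 1) (ht.Kc 0)
    (fun a ha b hb c hc => ht.TK c hc b hb a ha)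
  obtain ⟨U, hU, hsub, hcp⟩ := local_compact_nhds (Filter.inter_mem hU₁ hU₂)
  refine ⟨U, hcp, hU, ?_, ?_⟩
  · intro s₀ hs₀ s₁ hs₁ s₂ hs₂ e₀ he₀ e₁ he₁ e₂ he₂
    exact h1 s₀ hs₀ s₁ hs₁ s₂ hs₂ e₀ (hsub he₀).1 e₁ (hsub he₁).1 e₂ (hsub he₂).1
  · intro k₀ hk₀ k₁ hk₁ k₂ hk₂ e₀ he₀ e₁ he₁ e₂ he₂
    exact h2 k₂ hk₂ k₁ hk₁ k₀ hk₀ e₂ (hsub he₂).2 e₁ (hsub he₁).2 e₀ (hsub he₀).2

end Pool.Agent.MPEF.U
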